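import Pool.Agent.helper42.MF.Map
import Pool.Agent.helper35.MF.Len

set_option autoImplicit false

/-!
# MP_141f81: the ambient structure `Amb` from `CoarseF`
-/

namespace Pool.Agent.helper42.MF

open Pool.Agent.helper16.MF Pool.Agent.helper35.MF

theorem cZ_mono {m m' : ℕ} (h : m ≤ m') : cZ m ≤ cZ m' := by
  induction m' with
  | zero =>
    obtain rfl : m = 0 := by omega
    exact le_rfl
  | succ m' ih =>
    rcases Nat.lt_or_ge m' m with h1 | h1
    · obtain rfl : m = m' + 1 := by omega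
      exact le_rfl
    · have := ih h1
      rw [show cZ (m' + 1) = 3 * cM m' + 6 + cZ m' from rfl]
      omega

theorem HH_mono (l0 l1 : ℕ) : Monotone (fun b => HH b l0 l1) := by
  intro a b hab
  have h1 : cZ (2 * wl l1 l0 + a * l1) ≤ cZ (2 * wl l1 l0 + b * l1) :=
    cZ_mono (Nat.add_le_add_left (Nat.mul_le_mul_right l1 hab) _)
  have h2 := cL_mono l1 hab
  show HH a l0 l1 ≤ HH b l0 l1
  unfold HH
  omega

/-- a chain of length at most `k` as a function -/
theorem rc_path {α : Type*} {r : α → α → Prop} {k : ℕ} {a b : α} (h : Rc r k a b) :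
    ∃ f : ℕ → α, f 0 = a ∧ f k = b ∧ ∀ i < k, f i = f (i + 1) ∨ r (f i) (f (i + 1)) ∨ r (f (i + 1)) (f i) := by
  induction k generalizing a with
  | zero => exact ⟨fun _ => a, rfl, h, fun i hi => absurd hi (Nat.not_lt_zero i)⟩
  | succ k ih =>
    obtain ⟨c, h1, h2⟩ := h
    obtain ⟨f, hf0, hfk, hf⟩ := ih h2
    refine ⟨fun i => match i with
      | 0 => a
      | i + 1 => f i, rfl, hfk, ?_⟩
    intro i hi
    rcases i with _ | i
    · change a = f 0 ∨ r a (f 0) ∨ r (f 0) a
      rw [hf0]
      exact h1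
    · exact hf i (by omega)

section

variable {X : Type} {T D : Set (X →₀ ZMod 2)}

/-- a chain of `Stp` steps starting in `D`, extended by a constant -/
theorem stp_path {R k : ℕ} {a b : X →₀ ZMod 2} (ha : a ∈ D) (h : Rc (Stp T D R) k a b) :
    ∃ f : ℕ → (X →₀ ZMod 2), f 0 = a ∧ f k = b ∧ (∀ i, f i ∈ D) ∧ ∀ i, f i + f (i + 1) ∈ Ball T R := by
  obtain ⟨f, hf0, hfk, hf⟩ := rc_path h
  have hD : ∀ i, i ≤ k → f i ∈ D := by
    intro i
    induction i with
    | zero =>
      intro _
      rw [hf0]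
      exact ha
    | succ i ih =>
      intro hi
      rcases hf i (by omega) with h1 | h1 | h1
      · rw [← h1]
        exact ih (by omega)
      · exact h1.2.1
      · exact h1.1
  refine ⟨fun i => f (min i k), by simp [hf0], by simp [hfk], fun i => hD _ (Nat.min_le_right _ _), fun i => ?_⟩
  rcases Nat.lt_or_ge i k with h1 | h1
  · have h2 : min i k = i := by omega
    have h3 : min (i + 1) k = i + 1 := by omega
    show f (min i k) + f (min (i + 1) k) ∈ Ball T R
    rw [h2, h3]
    rcases hf i h1 with h4 | h4 | h4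
    · rw [← h4, two_eq]
      exact Ball.mono (Nat.zero_le _) (Ball.zero T 0)
    · exact h4.2.2
    · rw [add_comm]
      exact h4.2.2
  · have h2 : min i k = k := by omega
    have h3 : min (i + 1) k = k := by omega
    show f (min i k) + f (min (i + 1) k) ∈ Ball T R
    rw [h2, h3, two_eq]
    exact Ball.mono (Nat.zero_le _) (Ball.zero T 0)

/-- **the ambient structure** -/
theorem amb_ball {F : Set (X →₀ ZMod 2)} {κ l1 l0 : ℕ} (h : CoarseF T D F κ l1 l0) :
    Amb (Ball T) D κ ((l1 + 6) * κ + 1) (fun s => HH s l0 l1) where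
  two := two_eq
  mono hrs := fun _ hx => Ball.mono hrs hx
  add h1 h2 := ball_add h1 h2
  zero := Ball.zero T 0
  Dadd := h.add
  Λmono := HH_mono l0 l1
  reach s y hy hys := by
    have h1 : (0 : X →₀ ZMod 2) + y ∈ Ball T s := by rwa [zero_add]
    obtain ⟨f, hf0, hfk, hfD, hf⟩ := stp_path h.zero (h.chain_len h.zero hy h1)
    exact ⟨f, ⟨hf0, hfD, hf⟩, hfk⟩

/-- the ambient structure, with larger steps -/
theorem amb_ball_ge {F : Set (X →₀ ZMod 2)} {κ l1 l0 R0 : ℕ} (h : CoarseF T D F κ l1 l0)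
    (hR : (l1 + 6) * κ + 1 ≤ R0) : Amb (Ball T) D κ R0 (fun s => HH s l0 l1) :=
  { amb_ball h with
    reach := fun s y hy hys => by
      obtain ⟨e, he, hey⟩ := (amb_ball h).reach s y hy hys
      exact ⟨e, ⟨he.start, he.mem, fun k => Ball.mono hR (he.step k)⟩, hey⟩ }

end

end Pool.Agent.helper42.MF
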