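import Pool.Agent.helper42.MF.Bridge
import Pool.Agent.helper35.MF.Lev

set_option autoImplicit false

/-!
# MP_141f81, Section 7e: the fields of `KillData` from sub-structures

`N = NH T H` (truncated area), `K = Kc T D` (elements of `D` of finite area).  `SubM` is a sub-structure with its
multiplication `M`.  The theorems below are the fields `h1 … h4`, `hsum`, `MxK`, `Mxadd`, `φ0`, `φdense`, `φinv`.
-/

namespace Pool.Agent.helper42.MF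

open Pool.Agent.helper16.MF Pool.Agent.helper35.MF

/-- a sub-structure `B'`, `D'` with an exact homomorphism `M` which does not increase the norms -/
structure SubM {G : Type*} [AddCommGroup G] (B : ℕ → Set G) (D : Set G) (κ k1 K2 : ℕ) (m : ℕ → ℕ)
    (s0 C Cp κ6 : ℕ) (B' : ℕ → Set G) (D' : Set G) (M : G →+ G) : Prop where
  pair : Pair B B' D D' κ k1 K2 m
  gap : Gap B B' D' s0 C Cp
  hM : ∀ r, ∀ x ∈ B' r, M x ∈ B r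
  nearD : ∀ x ∈ D', ∃ y ∈ D, x + y ∈ B κ6
  MD : ∀ x ∈ D', ∃ y ∈ D, M x + y ∈ B κ6

/-- the map on `K` induced by a sub-structure -/
noncomputable abbrev MK' {G : Type*} [AddCommGroup G] (B : ℕ → Set G) (κ K2 R0 : ℕ) (m : ℕ → ℕ)
    (B' : ℕ → Set G) (D' : Set G) (M : G →+ G) : G → G := Mh B B' D' (RR κ K2 R0 m) M

section

variable {L : Type} {T D : Set (L →₀ ZMod 2)} {κD R0 : ℕ} {Λ : ℕ → ℕ} (amb : Amb (Ball T) D κD R0 Λ)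
  {κ k1 K2 : ℕ} {m : ℕ → ℕ} {s0 C Cp κ6 H Lmax : ℕ}
include amb

theorem reach_K {e : L →₀ ZMod 2} (he : e ∈ Kc T D) (hL : NH T H e ≤ Lmax) (hH : Lmax < H) :
    Reach (Ball T) D R0 (Λ Lmax) e := amb.reach _ e he.1 (NH_ball hH hL)

/-- **`h1`, `h2`, `h3`**: the classes of the letters of a column, for a family of sub-structures -/
theorem fam_N {Y ι : Type} (good : Y → Prop) {B' : Y → ℕ → Set (L →₀ ZMod 2)} {D' : Y → Set (L →₀ ZMod 2)}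
    {M : Y → (L →₀ ZMod 2) →+ (L →₀ ZMod 2)}
    (hsub : ∀ y, good y → SubM (Ball T) D κ k1 K2 m s0 C Cp κ6 (B' y) (D' y) (M y))
    (P : Y → Set ι) (v : ι → (L →₀ ZMod 2)) (hP : ∀ y, good y → ∀ p ∈ P y, ∀ p' ∈ P y, v p + v p' ∈ D' y)
    (h6 : κ6 ≤ R2 κ K2 R0 + R0) {r : ℕ} (c1 : r + RR κ K2 R0 m + κ ≤ s0)
    (c2 : 2 * ((Λ (2 * Lmax + κ6) + 1) * (k1 + κ)) + LB κ k1 K2 R0 m (Λ Lmax) + κ ≤ Cp)
    (hHL : Lmax < H) (hHr : r < H) {q : ℕ} (hq : 2 ^ m (R1 κ K2 R0) ≤ q) (g : L →₀ ZMod 2) :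
    ∃ c : Y → ι → Fin q, ∀ y, good y → ∀ p ∈ P y, ∀ p' ∈ P y,
      NH T H (v p + g) ≤ Lmax → NH T H (v p' + g) ≤ Lmax → c y p = c y p' →
      ∀ e ∈ Kc T D, NH T H e ≤ Lmax → NH T H (v p + v p' + e) ≤ r →
        NH T H (M y (v p) + M y (v p') + MK' (Ball T) κ K2 R0 m (B' y) (D' y) (M y) e) ≤ C + κ := by
  classical
  have hpos : 0 < q := lt_of_lt_of_le (Nat.pos_of_ne_zero (by positivity)) hq
  have key : ∀ y, ∃ c : ι → Fin q, good y → ∀ p ∈ P y, ∀ p' ∈ P y,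
      NH T H (v p + g) ≤ Lmax → NH T H (v p' + g) ≤ Lmax → c p = c p' →
      ∀ e ∈ Kc T D, NH T H e ≤ Lmax → NH T H (v p + v p' + e) ≤ r →
        NH T H (M y (v p) + M y (v p') + MK' (Ball T) κ K2 R0 m (B' y) (D' y) (M y) e) ≤ C + κ := by
    intro y
    by_cases hy : good y
    · have hs := hsub y hy
      obtain ⟨c, hcc⟩ := map_classes hs.pair amb hs.gap hs.hM hs.nearD h6 (P y) v (hP y hy) g
        (s := Lmax) (L := Lmax) c1 c2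
      refine ⟨fun p => Fin.castLE hq (c p), fun _ p hp p' hp' h1 h2 h3 e he heL her => ?_⟩
      exact NH_le (hcc p hp p' hp' (NH_ball hHL h1) (NH_ball hHL h2) (Fin.castLE_injective hq h3) e he.1
        (NH_ball hHL heL) (NH_ball hHr her))
    · exact ⟨fun _ => ⟨0, hpos⟩, fun h0 => absurd h0 hy⟩
  choose c hcc using key
  exact ⟨c, hcc⟩

/-- **`h4`** -/
theorem one_N {ι : Type} {B' : ℕ → Set (L →₀ ZMod 2)} {D' : Set (L →₀ ZMod 2)}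
    {M : (L →₀ ZMod 2) →+ (L →₀ ZMod 2)} (hs : SubM (Ball T) D κ k1 K2 m s0 C Cp κ6 B' D' M)
    (P : Set ι) (v : ι → (L →₀ ZMod 2)) (hP : ∀ p ∈ P, ∀ p' ∈ P, v p + v p' ∈ D')
    (h6 : κ6 ≤ R2 κ K2 R0 + R0) {r : ℕ} (c1 : r + RR κ K2 R0 m + κ ≤ s0)
    (c2 : 2 * ((Λ (2 * Lmax + κ6) + 1) * (k1 + κ)) + LB κ k1 K2 R0 m (Λ Lmax) + κ ≤ Cp)
    (hHL : Lmax < H) (hHr : r < H) {q : ℕ} (hq : 2 ^ m (R1 κ K2 R0) ≤ q) (g : L →₀ ZMod 2) :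
    ∃ c : ι → Fin q, ∀ p ∈ P, ∀ p' ∈ P,
      NH T H (v p + g) ≤ Lmax → NH T H (v p' + g) ≤ Lmax → c p = c p' →
      ∀ e ∈ Kc T D, NH T H e ≤ Lmax → NH T H (v p + v p' + e) ≤ r →
        NH T H (M (v p) + M (v p') + MK' (Ball T) κ K2 R0 m B' D' M e) ≤ C + κ := by
  obtain ⟨c, hcc⟩ := fam_N amb (Y := Unit) (fun _ => True) (B' := fun _ => B') (D' := fun _ => D')
    (M := fun _ => M) (fun _ _ => hs) (fun _ => P) v (fun _ _ => hP) h6 c1 c2 hHL hHr hq g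
  exact ⟨c (), fun p hp p' hp' => hcc () trivial p hp p' hp'⟩

/-- **`hsum`** -/
theorem hsum_N {Bl B1 B2 B3 : ℕ → Set (L →₀ ZMod 2)} {Dl D1 D2 D3 : Set (L →₀ ZMod 2)}
    {M1 M2 M3 : (L →₀ ZMod 2) →+ (L →₀ ZMod 2)} {k5 c0 : ℕ}
    (hl : Pair (Ball T) Bl D Dl κ k1 K2 m)
    (h1 : SubM (Ball T) D κ k1 K2 m s0 C Cp κ6 B1 D1 M1) (h2 : SubM (Ball T) D κ k1 K2 m s0 C Cp κ6 B2 D2 M2)
    (h3 : SubM (Ball T) D κ k1 K2 m s0 C Cp κ6 B3 D3 M3)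
    (hB1 : ∀ r, Bl r ⊆ B1 r) (hB2 : ∀ r, Bl r ⊆ B2 r) (hB3 : ∀ r, Bl r ⊆ B3 r)
    (hD1 : ∀ x ∈ Dl, ∃ d ∈ D1, x + d ∈ B1 k5) (hD2 : ∀ x ∈ Dl, ∃ d ∈ D2, x + d ∈ B2 k5)
    (hD3 : ∀ x ∈ Dl, ∃ d ∈ D3, x + d ∈ B3 k5)
    (hsm : ∀ x ∈ Dl, M1 x + M2 x + M3 x ∈ Ball T c0)
    (c1 : 2 * RR κ K2 R0 m + k5 + κ ≤ s0) (c2 : 2 * LB κ k1 K2 R0 m (Λ Lmax) + k5 + κ ≤ Cp)
    (hHL : Lmax < H) {e : L →₀ ZMod 2} (he : e ∈ Kc T D) (heL : NH T H e ≤ Lmax) :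
    NH T H (MK' (Ball T) κ K2 R0 m B1 D1 M1 e + MK' (Ball T) κ K2 R0 m B2 D2 M2 e +
      MK' (Ball T) κ K2 R0 m B3 D3 M3 e) ≤ 3 * (C + κ + k5) + c0 :=
  NH_le (hsum hl h1.pair h2.pair h3.pair h1.gap h2.gap h3.gap h1.hM h2.hM h3.hM hB1 hB2 hB3 hD1 hD2 hD3 hsm
    c1 c2 (reach_K amb he heL hHL))

/-- **`MxK`** -/
theorem MK_N {B' : ℕ → Set (L →₀ ZMod 2)} {D' : Set (L →₀ ZMod 2)}
    {M : (L →₀ ZMod 2) →+ (L →₀ ZMod 2)} (hs : SubM (Ball T) D κ k1 K2 m s0 C Cp κ6 B' D' M)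
    (hHL : Lmax < H) {u : L →₀ ZMod 2} (hu : u ∈ Kc T D) (huL : NH T H u ≤ Lmax) :
    ∃ v ∈ Kc T D, NH T H (MK' (Ball T) κ K2 R0 m B' D' M u + v) ≤ κ6 := by
  obtain ⟨y, hy, h1, h2⟩ := MK hs.pair (reach_K amb hu huL hHL) hs.hM hs.MD
  exact ⟨y, ⟨hy, _, h2⟩, NH_le h1⟩

/-- **`Mxadd`** -/
theorem add_N {B' : ℕ → Set (L →₀ ZMod 2)} {D' : Set (L →₀ ZMod 2)}
    {M : (L →₀ ZMod 2) →+ (L →₀ ZMod 2)} (hs : SubM (Ball T) D κ k1 K2 m s0 C Cp κ6 B' D' M)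
    (c1 : κD + 3 * RR κ K2 R0 m + 2 * κ ≤ s0)
    (c2 : 3 * LB κ k1 K2 R0 m (Λ (3 * Lmax + 2 * κD)) + 2 * κ ≤ Cp) (hHL : 3 * Lmax < H)
    {u v w : L →₀ ZMod 2} (hu : u ∈ Kc T D) (hv : v ∈ Kc T D) (hw : w ∈ Kc T D)
    (huL : NH T H u ≤ Lmax) (hvL : NH T H v ≤ Lmax) (hwL : NH T H w ≤ Lmax) :
    NH T H (MK' (Ball T) κ K2 R0 m B' D' M u + MK' (Ball T) κ K2 R0 m B' D' M v +
      MK' (Ball T) κ K2 R0 m B' D' M w) ≤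
      2 * (C + 2 * κ) + LB κ k1 K2 R0 m (Λ (NH T H (u + v + w) + 2 * κD)) := by
  have hu' := NH_ball (by omega) huL
  have hv' := NH_ball (by omega) hvL
  have hw' := NH_ball (by omega) hwL
  have h1 : u + v + w ∈ Ball T (NH T H (u + v + w)) := by
    have h2 := NH_le (H := H) (ball_add (ball_add hu' hv') hw')
    exact NH_ball (by omega) le_rfl
  exact NH_le (add_all hs.pair amb hs.gap hs.hM c1 c2 hu.1 hv.1 hw.1 hu' hv' hw' h1)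

/-- **`φ0`** -/
theorem zero_N {B' : ℕ → Set (L →₀ ZMod 2)} {D' : Set (L →₀ ZMod 2)}
    {M : (L →₀ ZMod 2) →+ (L →₀ ZMod 2)} (hs : SubM (Ball T) D κ k1 K2 m s0 C Cp κ6 B' D' M)
    (h0 : (0 : L →₀ ZMod 2) ∈ D) (c1 : RR κ K2 R0 m + κ ≤ s0) (c2 : LB κ k1 K2 R0 m (Λ 0) + κ ≤ Cp) :
    NH T H (MK' (Ball T) κ K2 R0 m B' D' M 0) ≤ C + κ := by
  have h1 := near' hs.pair hs.gap hs.hM (amb.reach 0 0 h0 amb.zero) hs.pair.D0 (r := 0) (P := 0)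
    (by rw [add_zero]; exact amb.zero) hs.pair.zero' (by omega) (by omega)
  rw [map_zero, zero_add] at h1
  exact NH_le h1

section phi

variable {B1 Bs : ℕ → Set (L →₀ ZMod 2)} {D1 Ds : Set (L →₀ ZMod 2)} {φ : (L →₀ ZMod 2) →+ (L →₀ ZMod 2)}
  (hs1 : SubM (Ball T) D κ k1 K2 m s0 C Cp κ6 B1 D1 φ) (hs : Pair (Ball T) Bs D Ds κ k1 K2 m)
include hs1 hs

/-- **`φdense`** -/
theorem phi_dense_N (hDs : ∀ y ∈ Ds, ∃ x ∈ D1, φ x = y)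
    (hiso : ∀ r, ∀ x ∈ D1, φ x ∈ Bs r → x ∈ B1 r)
    (c1 : κ6 + RR κ K2 R0 m + κ ≤ s0)
    (c2 : LB κ k1 K2 R0 m (Λ Lmax) + LB κ k1 K2 R0 m (Λ (LB κ k1 K2 R0 m (Λ Lmax) + κ6)) + κ ≤ Cp)
    (hHL : Lmax < H) {u : L →₀ ZMod 2} (hu : u ∈ Kc T D) (huL : NH T H u ≤ Lmax) :
    ∃ v ∈ Kc T D, NH T H v ≤ LB κ k1 K2 R0 m (Λ (NH T H u)) + κ6 ∧
      NH T H (MK' (Ball T) κ K2 R0 m B1 D1 φ v + u) ≤ C + κ + RR κ K2 R0 m := by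
  have h1 : Reach (Ball T) D R0 (Λ (NH T H u)) u := reach_K amb hu le_rfl (by omega)
  have h2 := LB_mono κ k1 K2 R0 m (amb.Λmono huL)
  have h3 := LB_mono κ k1 K2 R0 m (amb.Λmono (Nat.add_le_add_right h2 κ6))
  obtain ⟨v, hv, hv1, hv2⟩ := phi_dense hs1.pair hs amb hs1.gap hs1.hM hDs hiso hs1.nearD c1
    (by omega) h1
  exact ⟨v, ⟨hv, _, hv1⟩, NH_le hv1, NH_le hv2⟩

/-- **`φinv`** -/
theorem phi_inv_N (hgs : Gap (Ball T) Bs Ds s0 C Cp) (hφs : ∀ r, ∀ x ∈ B1 r, φ x ∈ Bs r)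
    (hDs : ∀ x ∈ D1, φ x ∈ Ds) (hiso : ∀ r, ∀ x ∈ D1, φ x ∈ Bs r → x ∈ B1 r)
    (hDsD : ∀ x ∈ Ds, ∃ y ∈ D, x + y ∈ Ball T κ6)
    (c1 : RR κ K2 R0 m + κ6 + κ ≤ s0)
    (c2 : 2 * LB κ k1 K2 R0 m (Λ Lmax) + κ +
      LB κ k1 K2 R0 m (Λ (2 * LB κ k1 K2 R0 m (Λ Lmax) + κ + κ6)) + κ ≤ Cp)
    (hHL : Lmax < H) (hH : 2 * LB κ k1 K2 R0 m (Λ Lmax) < H)
    {u v : L →₀ ZMod 2} (hu : u ∈ Kc T D) (hv : v ∈ Kc T D) (huL : NH T H u ≤ Lmax) (hvL : NH T H v ≤ Lmax) :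
    NH T H (u + v) ≤
      LB κ k1 K2 R0 m (Λ (NH T H (MK' (Ball T) κ K2 R0 m B1 D1 φ u + MK' (Ball T) κ K2 R0 m B1 D1 φ v) + κ + κ6)) +
        C + 2 * κ + 2 * RR κ K2 R0 m := by
  have ru := reach_K amb hu huL hHL
  have rv := reach_K amb hv hvL hHL
  have h1 := ball_add (lip hs1.pair ru hs1.hM) (lip hs1.pair rv hs1.hM)
  have h2 := NH_le (H := H) h1
  have h3 : NH T H (Mh (Ball T) B1 D1 (RR κ K2 R0 m) φ u + Mh (Ball T) B1 D1 (RR κ K2 R0 m) φ v) ≤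
      2 * LB κ k1 K2 R0 m (Λ Lmax) := by omega
  have h4 := NH_ball (T := T) (H := H) (by omega)
    (le_refl (NH T H (Mh (Ball T) B1 D1 (RR κ K2 R0 m) φ u + Mh (Ball T) B1 D1 (RR κ K2 R0 m) φ v)))
  have h5 := LB_mono κ k1 K2 R0 m (amb.Λmono (Nat.add_le_add_right (Nat.add_le_add_right h3 κ) κ6))
  have h6 := phi_inv hs1.pair hs amb hgs hs1.hM hφs hDs hiso hDsD c1 (by omega) ru rv h4
  exact NH_le h6

end phi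

end

end Pool.Agent.helper42.MF
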