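import Pool.Agent.helper16.MF.Sub

set_option autoImplicit false

/-!
# MP_141f81, Section 7 (7c): the maps `M_x`, the sheets and `φ` on top of `Pair`

`B r` are the balls of the area norm, `D` the coarse set, `Λ s` the chain length of the elements of `D` of norm at
most `s` (`Amb`).  `Pair B B' D D'` is a sub-structure `σ`, `M : G →+ G` an exact homomorphism which does not increase
the norms (`M (B' r) ⊆ B r`).  `Mh M e = M (ap e)`, where `ap e ∈ D'` is an approximation of `e` of least `B'`-norm.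
Everything holds below the gap `(C, Cp]`.
-/

namespace Pool.Agent.helper42.MF

open Pool.Agent.helper16.MF

variable {G : Type*} [AddCommGroup G]

/-- `y` is reached by a chain of length `k` -/
def Reach (B : ℕ → Set G) (D : Set G) (R0 k : ℕ) (y : G) : Prop :=
  ∃ e : ℕ → G, Chain B D R0 e ∧ e k = y

/-- the ambient structure -/
structure Amb (B : ℕ → Set G) (D : Set G) (κD R0 : ℕ) (Λ : ℕ → ℕ) : Prop where
  two : ∀ g : G, g + g = 0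
  mono : ∀ {r s : ℕ}, r ≤ s → B r ⊆ B s
  add : ∀ {r s : ℕ} {a b : G}, a ∈ B r → b ∈ B s → a + b ∈ B (r + s)
  zero : (0 : G) ∈ B 0
  Dadd : ∀ a ∈ D, ∀ b ∈ D, ∃ d ∈ D, a + b + d ∈ B κD
  Λmono : Monotone Λ
  reach : ∀ s, ∀ y ∈ D, y ∈ B s → Reach B D R0 (Λ s) y

/-- the bound for the `B'`-norm of the approximation of a point at chain distance `k` -/
def LB (κ k1 K2 R0 : ℕ) (m : ℕ → ℕ) (k : ℕ) : ℕ :=
  k * (k1 + κ) + 2 * (2 ^ m (R1 κ K2 R0) + 1) * κ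

theorem LB_mono (κ k1 K2 R0 : ℕ) (m : ℕ → ℕ) : Monotone (LB κ k1 K2 R0 m) := by
  intro a b hab
  have h1 := Nat.mul_le_mul_right (k1 + κ) hab
  unfold LB
  omega

open Classical in
/-- the approximation of `e` by a point of `D'`, of least `B'`-norm -/
noncomputable def ap (B B' : ℕ → Set G) (D' : Set G) (ρ : ℕ) (e : G) : G :=
  if h : ∃ r, ∃ x ∈ D', e + x ∈ B ρ ∧ x ∈ B' r then Classical.choose (Nat.find_spec h) else 0

theorem ap_spec {B B' : ℕ → Set G} {D' : Set G} {ρ r : ℕ} {e : G}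
    (mono' : ∀ {r s : ℕ}, r ≤ s → B' r ⊆ B' s) (h : ∃ x ∈ D', e + x ∈ B ρ ∧ x ∈ B' r) :
    ap B B' D' ρ e ∈ D' ∧ e + ap B B' D' ρ e ∈ B ρ ∧ ap B B' D' ρ e ∈ B' r := by
  classical
  have h1 : ∃ r, ∃ x ∈ D', e + x ∈ B ρ ∧ x ∈ B' r := ⟨r, h⟩
  have h2 : ap B B' D' ρ e = Classical.choose (Nat.find_spec h1) := by
    unfold ap
    rw [dif_pos h1]
  have h3 := Classical.choose_spec (Nat.find_spec h1)
  rw [← h2] at h3
  exact ⟨h3.1, h3.2.1, mono' (Nat.find_min' h1 h) h3.2.2⟩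

/-- the map induced by `M` -/
noncomputable def Mh (B B' : ℕ → Set G) (D' : Set G) (ρ : ℕ) (M : G →+ G) (e : G) : G :=
  M (ap B B' D' ρ e)

section pair

variable {B B' : ℕ → Set G} {D D' : Set G} {κ k1 K2 : ℕ} {m : ℕ → ℕ} (h : Pair B B' D D' κ k1 K2 m)
include h

theorem reach_mono {R0 k k' : ℕ} {y : G} (hy : Reach B D R0 k y) (hk : k ≤ k') : Reach B D R0 k' y := by
  obtain ⟨e, he, hey⟩ := hy
  refine ⟨fun i => e (min i k), ⟨by simp [he.start], fun i => he.mem _, fun i => ?_⟩, by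
    show e (min k' k) = y
    rw [Nat.min_eq_right hk, hey]⟩
  rcases Nat.lt_or_ge i k with h1 | h1
  · have h2 : min i k = i := by omega
    have h3 : min (i + 1) k = i + 1 := by omega
    show e (min i k) + e (min (i + 1) k) ∈ B R0
    rw [h2, h3]
    exact he.step i
  · have h2 : min i k = k := by omega
    have h3 : min (i + 1) k = k := by omega
    show e (min i k) + e (min (i + 1) k) ∈ B R0
    rw [h2, h3, h.two]
    exact h.mono (Nat.zero_le _) h.zero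

theorem ap_reach {R0 k : ℕ} {e : G} (he : Reach B D R0 k e) :
    ap B B' D' (RR κ K2 R0 m) e ∈ D' ∧ e + ap B B' D' (RR κ K2 R0 m) e ∈ B (RR κ K2 R0 m) ∧
      ap B B' D' (RR κ K2 R0 m) e ∈ B' (LB κ k1 K2 R0 m k) := by
  obtain ⟨c, hc, rfl⟩ := he
  exact ap_spec h.mono' (h.dense hc k)

/-- (M3) `M_x` is Lipschitz in the chain length -/
theorem lip {R0 k : ℕ} {e : G} (he : Reach B D R0 k e) {M : G →+ G} (hM : ∀ r, ∀ x ∈ B' r, M x ∈ B r) :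
    Mh B B' D' (RR κ K2 R0 m) M e ∈ B (LB κ k1 K2 R0 m k) :=
  hM _ _ (ap_reach h he).2.2

/-- (M1) well defined -/
theorem near {R0 s0 C Cp : ℕ} (hg : Gap B B' D' s0 C Cp) {M : G →+ G} (hM : ∀ r, ∀ x ∈ B' r, M x ∈ B r)
    {k : ℕ} {e : G} (he : Reach B D R0 k e) {x d : G} {r P k5 : ℕ} (hd : d ∈ D') (hxd : x + d ∈ B' k5)
    (hxe : x + e ∈ B r) (hx : x ∈ B' P) (c1 : r + k5 + RR κ K2 R0 m + κ ≤ s0)
    (c2 : P + k5 + LB κ k1 K2 R0 m k + κ ≤ Cp) :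
    M x + Mh B B' D' (RR κ K2 R0 m) M e ∈ B (C + κ + k5) := by
  obtain ⟨ha, ha1, ha2⟩ := ap_reach h he
  set a := ap B B' D' (RR κ K2 R0 m) e with hadef
  have h1 : d + a ∈ B (k5 + r + RR κ K2 R0 m) := by
    have h2 : d + x ∈ B k5 := by
      rw [add_comm]
      exact h.le _ hxd
    exact h.tri (h.tri h2 hxe) ha1
  have h2 : d ∈ B' (P + k5) := by
    have h3 := h.add' hx hxd
    rwa [← add_assoc, h.two, zero_add] at h3
  have h3 := h.near_unique hg hd ha h1 (by omega) h2 ha2 (by omega)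
  have h4 := h.add (hM _ _ hxd) (hM _ _ h3)
  have h5 : M (x + d) + M (d + a) = M x + M a := by
    rw [← map_add, ← map_add]
    congr 1
    rw [add_assoc, ← add_assoc d d a, h.two, zero_add]
  rw [h5] at h4
  exact h.mono (by omega) h4

/-- (M1) for points of `D'` -/
theorem near' {R0 s0 C Cp : ℕ} (hg : Gap B B' D' s0 C Cp) {M : G →+ G} (hM : ∀ r, ∀ x ∈ B' r, M x ∈ B r)
    {k : ℕ} {e : G} (he : Reach B D R0 k e) {x : G} {r P : ℕ} (hd : x ∈ D')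
    (hxe : x + e ∈ B r) (hx : x ∈ B' P) (c1 : r + RR κ K2 R0 m + κ ≤ s0)
    (c2 : P + LB κ k1 K2 R0 m k + κ ≤ Cp) :
    M x + Mh B B' D' (RR κ K2 R0 m) M e ∈ B (C + κ) := by
  have h1 : x + x ∈ B' 0 := by
    rw [h.two]
    exact h.zero'
  have h2 := near h hg hM he hd h1 hxe hx (by omega) (by omega)
  simpa using h2

/-- (M2) additivity at a bounded scale -/
theorem add3 {R0 s0 C Cp : ℕ} (hg : Gap B B' D' s0 C Cp) {M : G →+ G} (hM : ∀ r, ∀ x ∈ B' r, M x ∈ B r)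
    {ke kf kg : ℕ} {e f g : G} (he : Reach B D R0 ke e) (hf : Reach B D R0 kf f) (hgg : Reach B D R0 kg g)
    {r : ℕ} (hefg : e + f + g ∈ B r) (c1 : r + 3 * RR κ K2 R0 m + 2 * κ ≤ s0)
    (c2 : LB κ k1 K2 R0 m ke + LB κ k1 K2 R0 m kf + LB κ k1 K2 R0 m kg + 2 * κ ≤ Cp) :
    Mh B B' D' (RR κ K2 R0 m) M e + Mh B B' D' (RR κ K2 R0 m) M f + Mh B B' D' (RR κ K2 R0 m) M g ∈
      B (C + 2 * κ) := by
  obtain ⟨ha, ha1, ha2⟩ := ap_reach h he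
  obtain ⟨hb, hb1, hb2⟩ := ap_reach h hf
  obtain ⟨hc, hc1, hc2⟩ := ap_reach h hgg
  set a := ap B B' D' (RR κ K2 R0 m) e with hadef
  set b := ap B B' D' (RR κ K2 R0 m) f with hbdef
  set c := ap B B' D' (RR κ K2 R0 m) g with hcdef
  obtain ⟨d, hd, hd'⟩ := h.Dadd a ha b hb
  have h1 : d + c ∈ B (κ + 3 * RR κ K2 R0 m + r) := by
    have h2 := h.add (h.add (h.add (h.add (h.le _ hd') hefg) ha1) hb1) hc1
    have h3 : a + b + d + (e + f + g) + (e + a) + (f + b) + (g + c) =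
        d + c + ((a + a) + (b + b) + (e + e) + (f + f) + (g + g)) := by abel
    rw [h3] at h2
    simp only [h.two, add_zero] at h2
    exact h.mono (by omega) h2
  have h2 : d ∈ B' (LB κ k1 K2 R0 m ke + LB κ k1 K2 R0 m kf + κ) := by
    have h3 := h.add' (h.add' ha2 hb2) hd'
    rwa [← add_assoc, h.two, zero_add] at h3
  have h3 := h.near_unique hg hd hc h1 (by omega) h2 hc2 (by omega)
  have h4 := h.add (hM _ _ hd') (hM _ _ h3)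
  have h5 : M (a + b + d) + M (d + c) = M a + M b + M c := by
    rw [← map_add, ← map_add, ← map_add]
    congr 1
    rw [add_assoc (a + b), ← add_assoc d d c, h.two, zero_add]
  rw [h5] at h4
  exact h.mono (by omega) h4

/-- (M2) additivity at every scale -/
theorem add_all {κD R0 s0 C Cp L : ℕ} {Λ : ℕ → ℕ} (amb : Amb B D κD R0 Λ) (hg : Gap B B' D' s0 C Cp)
    {M : G →+ G} (hM : ∀ r, ∀ x ∈ B' r, M x ∈ B r) (c1 : κD + 3 * RR κ K2 R0 m + 2 * κ ≤ s0)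
    (c2 : 3 * LB κ k1 K2 R0 m (Λ (3 * L + 2 * κD)) + 2 * κ ≤ Cp)
    {u v w : G} (hu : u ∈ D) (hv : v ∈ D) (hw : w ∈ D) (huL : u ∈ B L) (hvL : v ∈ B L) (hwL : w ∈ B L)
    {s : ℕ} (hs : u + v + w ∈ B s) :
    Mh B B' D' (RR κ K2 R0 m) M u + Mh B B' D' (RR κ K2 R0 m) M v + Mh B B' D' (RR κ K2 R0 m) M w ∈
      B (2 * (C + 2 * κ) + LB κ k1 K2 R0 m (Λ (s + 2 * κD))) := by
  obtain ⟨y, hy, hy1⟩ := amb.Dadd u hu v hv
  obtain ⟨z, hz, hz1⟩ := amb.Dadd y hy w hw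
  have hyB : y ∈ B (2 * L + κD) := by
    have h3 := h.add (h.add huL hvL) hy1
    rw [← add_assoc, h.two, zero_add] at h3
    exact h.mono (by omega) h3
  have key : ∀ t, u + v + w ∈ B t → z ∈ B (t + 2 * κD) := by
    intro t ht
    have h3 := h.add (h.add hy1 ht) hz1
    have h4 : u + v + y + (u + v + w) + (y + w + z) =
        z + ((u + u) + (v + v) + (w + w) + (y + y)) := by abel
    rw [h4] at h3
    simp only [h.two, add_zero] at h3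
    exact h.mono (by omega) h3
  have hmin : u + v + w ∈ B (min s (3 * L)) := by
    rcases Nat.le_total s (3 * L) with h1 | h1
    · rwa [Nat.min_eq_left h1]
    · rw [Nat.min_eq_right h1]
      exact h.mono (by omega) (h.add (h.add huL hvL) hwL)
  have hzB := key _ hmin
  have mz : Λ (min s (3 * L) + 2 * κD) ≤ Λ (3 * L + 2 * κD) := amb.Λmono (by omega)
  have mz' : Λ (min s (3 * L) + 2 * κD) ≤ Λ (s + 2 * κD) := amb.Λmono (by omega)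
  have mu : Λ L ≤ Λ (3 * L + 2 * κD) := amb.Λmono (by omega)
  have my : Λ (2 * L + κD) ≤ Λ (3 * L + 2 * κD) := amb.Λmono (by omega)
  have lz := LB_mono κ k1 K2 R0 m mz
  have lz' := LB_mono κ k1 K2 R0 m mz'
  have lu := LB_mono κ k1 K2 R0 m mu
  have ly := LB_mono κ k1 K2 R0 m my
  have ru := amb.reach _ u hu huL
  have rv := amb.reach _ v hv hvL
  have rw' := amb.reach _ w hw hwL
  have ry := amb.reach _ y hy hyB
  have rz := amb.reach _ z hz hzB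
  have a1 := add3 h hg hM ru rv ry hy1 c1 (by omega)
  have a2 := add3 h hg hM ry rw' rz hz1 c1 (by omega)
  have a3 := lip h rz hM
  have a4 := h.add (h.add a1 a2) a3
  set Mu := Mh B B' D' (RR κ K2 R0 m) M u
  set Mv := Mh B B' D' (RR κ K2 R0 m) M v
  set Mw := Mh B B' D' (RR κ K2 R0 m) M w
  set My := Mh B B' D' (RR κ K2 R0 m) M y
  set Mz := Mh B B' D' (RR κ K2 R0 m) M z
  have h4 : Mu + Mv + My + (My + Mw + Mz) + Mz = Mu + Mv + Mw + ((My + My) + (Mz + Mz)) := by abel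
  rw [h4] at a4
  simp only [h.two, add_zero] at a4
  exact h.mono (by omega) a4

/-- `M_x K ⊆ K` up to `κ6` -/
theorem MK {R0 k κ6 : ℕ} {e : G} (he : Reach B D R0 k e) {M : G →+ G} (hM : ∀ r, ∀ x ∈ B' r, M x ∈ B r)
    (hMD : ∀ x ∈ D', ∃ y ∈ D, M x + y ∈ B κ6) :
    ∃ y ∈ D, Mh B B' D' (RR κ K2 R0 m) M e + y ∈ B κ6 ∧ y ∈ B (LB κ k1 K2 R0 m k + κ6) := by
  obtain ⟨y, hy, hy1⟩ := hMD _ (ap_reach h he).1
  refine ⟨y, hy, hy1, ?_⟩
  have h1 := h.add (lip h he hM) hy1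
  rwa [Mh, ← add_assoc, h.two, zero_add] at h1

/-- two points of `D'` on the same sheet -/
theorem classes {κD R0 κ6 : ℕ} {Λ : ℕ → ℕ} (amb : Amb B D κD R0 Λ)
    (hD' : ∀ x ∈ D', ∃ y ∈ D, x + y ∈ B κ6) (h6 : κ6 ≤ R2 κ K2 R0 + R0)
    {ι : Type*} (P : Set ι) (v : ι → G) (hP : ∀ p ∈ P, ∀ p' ∈ P, v p + v p' ∈ D') (g0 : G) (s : ℕ) :
    ∃ c : ι → Fin (2 ^ m (R1 κ K2 R0)), ∀ p ∈ P, ∀ p' ∈ P, v p + g0 ∈ B s → v p' + g0 ∈ B s → c p = c p' →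
      v p + v p' ∈ B' (2 * ((Λ (2 * s + κ6) + 1) * (k1 + κ))) := by
  classical
  have hpos : 0 < 2 ^ m (R1 κ K2 R0) := Nat.pos_of_ne_zero (by positivity)
  by_cases hex : ∃ p0 ∈ P, v p0 + g0 ∈ B s
  · obtain ⟨p0, hp0, hp0g⟩ := hex
    obtain ⟨S, hS, hS0, hsh⟩ := h.sheets (R0 := R0)
    have key : ∀ p, ∃ σ ∈ S, p ∈ P → v p + g0 ∈ B s →
        v p + v p0 + σ ∈ B' ((Λ (2 * s + κ6) + 1) * (k1 + κ)) := by
      intro p
      by_cases hp : p ∈ P ∧ v p + g0 ∈ B s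
      · obtain ⟨hp1, hp2⟩ := hp
        have hx := hP p hp1 p0 hp0
        obtain ⟨y, hy, hy1⟩ := hD' _ hx
        have hxB : v p + v p0 ∈ B (2 * s) := by
          rw [add_comm (v p0)] at hp0g
          exact h.mono (by omega) (h.tri hp2 hp0g)
        have hyB : y ∈ B (2 * s + κ6) := by
          have h3 := h.add hxB hy1
          rwa [← add_assoc, h.two, zero_add] at h3
        obtain ⟨e, he, hey⟩ := amb.reach _ y hy hyB
        obtain ⟨σ, hσ, hσ'⟩ := hsh e he (Λ (2 * s + κ6)) _ hx (by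
          rw [hey, add_comm y]
          exact h.mono h6 hy1)
        exact ⟨σ, hσ, fun _ _ => hσ'⟩
      · exact ⟨0, hS0, fun h1 h2 => absurd ⟨h1, h2⟩ hp⟩
    choose σ hσS hσ using key
    have hcard : Fintype.card S ≤ Fintype.card (Fin (2 ^ m (R1 κ K2 R0))) := by
      rw [Fintype.card_coe, Fintype.card_fin]
      exact hS
    obtain ⟨f⟩ := Function.Embedding.nonempty_of_card_le hcard
    refine ⟨fun p => f ⟨σ p, hσS p⟩, fun p hp p' hp' hg hg' hc => ?_⟩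
    have h1 := f.injective hc
    rw [Subtype.mk.injEq] at h1
    have h2 := hσ p hp hg
    have h3 := hσ p' hp' hg'
    rw [← h1] at h3
    have h4 := h.add' h2 h3
    have h5 : v p + v p0 + σ p + (v p' + v p0 + σ p) =
        v p + v p' + ((v p0 + v p0) + (σ p + σ p)) := by abel
    rw [h5] at h4
    simp only [h.two, add_zero] at h4
    exact h.mono' (by omega) h4
  · push Not at hex
    exact ⟨fun _ => ⟨0, hpos⟩, fun p hp p' _ hg _ _ => absurd hg (hex p hp)⟩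

/-- (M4) the sheets and `M_x` -/
theorem map_classes {κD R0 κ6 s0 C Cp : ℕ} {Λ : ℕ → ℕ} (amb : Amb B D κD R0 Λ)
    (hg : Gap B B' D' s0 C Cp) {M : G →+ G} (hM : ∀ r, ∀ x ∈ B' r, M x ∈ B r)
    (hD' : ∀ x ∈ D', ∃ y ∈ D, x + y ∈ B κ6) (h6 : κ6 ≤ R2 κ K2 R0 + R0)
    {ι : Type*} (P : Set ι) (v : ι → G) (hP : ∀ p ∈ P, ∀ p' ∈ P, v p + v p' ∈ D') (g0 : G) {s L r : ℕ}
    (c1 : r + RR κ K2 R0 m + κ ≤ s0)
    (c2 : 2 * ((Λ (2 * s + κ6) + 1) * (k1 + κ)) + LB κ k1 K2 R0 m (Λ L) + κ ≤ Cp) :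
    ∃ c : ι → Fin (2 ^ m (R1 κ K2 R0)), ∀ p ∈ P, ∀ p' ∈ P, v p + g0 ∈ B s → v p' + g0 ∈ B s → c p = c p' →
      ∀ e ∈ D, e ∈ B L → v p + v p' + e ∈ B r →
        M (v p) + M (v p') + Mh B B' D' (RR κ K2 R0 m) M e ∈ B (C + κ) := by
  obtain ⟨c, hc⟩ := classes h amb hD' h6 P v hP g0 s
  refine ⟨c, fun p hp p' hp' hg1 hg2 hcc e he heL her => ?_⟩
  have h1 := near' h hg hM (amb.reach _ e he heL) (hP p hp p' hp') her (hc p hp p' hp' hg1 hg2 hcc) c1 c2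
  rwa [map_add] at h1

end pair

/-- (M5) `M_x + M_y + M_u ∼ 0` along a line `λ`: one common sub-structure `Bl`, `Dl` which refines three -/
theorem hsum {B Bl B1 B2 B3 : ℕ → Set G} {D Dl D1 D2 D3 : Set G} {κ k1 K2 : ℕ} {m : ℕ → ℕ}
    (hl : Pair B Bl D Dl κ k1 K2 m) (h1 : Pair B B1 D D1 κ k1 K2 m) (h2 : Pair B B2 D D2 κ k1 K2 m)
    (h3 : Pair B B3 D D3 κ k1 K2 m) {R0 s0 C Cp k5 c0 : ℕ}
    (hg1 : Gap B B1 D1 s0 C Cp) (hg2 : Gap B B2 D2 s0 C Cp) (hg3 : Gap B B3 D3 s0 C Cp)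
    {M1 M2 M3 : G →+ G} (hM1 : ∀ r, ∀ x ∈ B1 r, M1 x ∈ B r) (hM2 : ∀ r, ∀ x ∈ B2 r, M2 x ∈ B r)
    (hM3 : ∀ r, ∀ x ∈ B3 r, M3 x ∈ B r)
    (hB1 : ∀ r, Bl r ⊆ B1 r) (hB2 : ∀ r, Bl r ⊆ B2 r) (hB3 : ∀ r, Bl r ⊆ B3 r)
    (hD1 : ∀ x ∈ Dl, ∃ d ∈ D1, x + d ∈ B1 k5) (hD2 : ∀ x ∈ Dl, ∃ d ∈ D2, x + d ∈ B2 k5)
    (hD3 : ∀ x ∈ Dl, ∃ d ∈ D3, x + d ∈ B3 k5)
    (hsm : ∀ x ∈ Dl, M1 x + M2 x + M3 x ∈ B c0)
    (c1 : 2 * RR κ K2 R0 m + k5 + κ ≤ s0) {k : ℕ} (c2 : 2 * LB κ k1 K2 R0 m k + k5 + κ ≤ Cp)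
    {e : G} (he : Reach B D R0 k e) :
    Mh B B1 D1 (RR κ K2 R0 m) M1 e + Mh B B2 D2 (RR κ K2 R0 m) M2 e + Mh B B3 D3 (RR κ K2 R0 m) M3 e ∈
      B (3 * (C + κ + k5) + c0) := by
  obtain ⟨ha, ha1, ha2⟩ := ap_reach hl he
  set a := ap B Bl Dl (RR κ K2 R0 m) e with hadef
  rw [add_comm] at ha1
  obtain ⟨d1, hd1, hd1'⟩ := hD1 a ha
  obtain ⟨d2, hd2, hd2'⟩ := hD2 a ha
  obtain ⟨d3, hd3, hd3'⟩ := hD3 a ha
  have n1 := near h1 hg1 hM1 he hd1 hd1' ha1 (hB1 _ ha2) (by omega) (by omega)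
  have n2 := near h2 hg2 hM2 he hd2 hd2' ha1 (hB2 _ ha2) (by omega) (by omega)
  have n3 := near h3 hg3 hM3 he hd3 hd3' ha1 (hB3 _ ha2) (by omega) (by omega)
  have n4 := hl.add (hl.add (hl.add n1 n2) n3) (hsm a ha)
  set x1 := Mh B B1 D1 (RR κ K2 R0 m) M1 e
  set x2 := Mh B B2 D2 (RR κ K2 R0 m) M2 e
  set x3 := Mh B B3 D3 (RR κ K2 R0 m) M3 e
  have h4 : M1 a + x1 + (M2 a + x2) + (M3 a + x3) + (M1 a + M2 a + M3 a) =
      x1 + x2 + x3 + ((M1 a + M1 a) + (M2 a + M2 a) + (M3 a + M3 a)) := by abel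
  rw [h4] at n4
  simp only [hl.two, add_zero] at n4
  exact hl.mono (by omega) n4

section phi

variable {B B1 Bs : ℕ → Set G} {D D1 Ds : Set G} {κ k1 K2 : ℕ} {m : ℕ → ℕ}
  (h : Pair B B1 D D1 κ k1 K2 m) (hs : Pair B Bs D Ds κ k1 K2 m)
include h hs

/-- `φ` has dense image -/
theorem phi_dense {κD R0 κ6 s0 C Cp k : ℕ} {Λ : ℕ → ℕ} (amb : Amb B D κD R0 Λ)
    (hg : Gap B B1 D1 s0 C Cp) {φ : G →+ G} (hφ : ∀ r, ∀ x ∈ B1 r, φ x ∈ B r)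
    (hDs : ∀ y ∈ Ds, ∃ x ∈ D1, φ x = y) (hiso : ∀ r, ∀ x ∈ D1, φ x ∈ Bs r → x ∈ B1 r)
    (hD1 : ∀ x ∈ D1, ∃ y ∈ D, x + y ∈ B κ6)
    (c1 : κ6 + RR κ K2 R0 m + κ ≤ s0)
    (c2 : LB κ k1 K2 R0 m k + LB κ k1 K2 R0 m (Λ (LB κ k1 K2 R0 m k + κ6)) + κ ≤ Cp)
    {u : G} (hu : Reach B D R0 k u) :
    ∃ v ∈ D, v ∈ B (LB κ k1 K2 R0 m k + κ6) ∧
      Mh B B1 D1 (RR κ K2 R0 m) φ v + u ∈ B (C + κ + RR κ K2 R0 m) := by
  obtain ⟨ha, ha1, ha2⟩ := ap_reach hs hu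
  set a := ap B Bs Ds (RR κ K2 R0 m) u with hadef
  obtain ⟨x, hx, hxa⟩ := hDs a ha
  rw [← hxa] at ha1 ha2
  have hx1 := hiso _ x hx ha2
  obtain ⟨v, hv, hv1⟩ := hD1 x hx
  have hvB : v ∈ B (LB κ k1 K2 R0 m k + κ6) := by
    have h3 := h.add (h.le _ hx1) hv1
    rwa [← add_assoc, h.two, zero_add] at h3
  refine ⟨v, hv, hvB, ?_⟩
  have h1 := near' h hg hφ (amb.reach _ v hv hvB) hx hv1 hx1 c1 c2
  rw [add_comm (φ x)] at h1
  rw [add_comm u] at ha1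
  exact h.tri h1 ha1

/-- `φ` has a coarse inverse -/
theorem phi_inv {κD R0 κ6 s0 C Cp ku kv : ℕ} {Λ : ℕ → ℕ} (amb : Amb B D κD R0 Λ)
    (hgs : Gap B Bs Ds s0 C Cp) {φ : G →+ G} (hφ : ∀ r, ∀ x ∈ B1 r, φ x ∈ B r)
    (hφs : ∀ r, ∀ x ∈ B1 r, φ x ∈ Bs r)
    (hDs : ∀ x ∈ D1, φ x ∈ Ds) (hiso : ∀ r, ∀ x ∈ D1, φ x ∈ Bs r → x ∈ B1 r)
    (hDsD : ∀ x ∈ Ds, ∃ y ∈ D, x + y ∈ B κ6)
    (c1 : RR κ K2 R0 m + κ6 + κ ≤ s0) {s : ℕ}
    (c2 : LB κ k1 K2 R0 m ku + LB κ k1 K2 R0 m kv + κ + LB κ k1 K2 R0 m (Λ (s + κ + κ6)) + κ ≤ Cp)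
    {u v : G} (hu : Reach B D R0 ku u) (hv : Reach B D R0 kv v)
    (huv : Mh B B1 D1 (RR κ K2 R0 m) φ u + Mh B B1 D1 (RR κ K2 R0 m) φ v ∈ B s) :
    u + v ∈ B (LB κ k1 K2 R0 m (Λ (s + κ + κ6)) + C + 2 * κ + 2 * RR κ K2 R0 m) := by
  obtain ⟨ha, ha1, ha2⟩ := ap_reach h hu
  obtain ⟨hb, hb1, hb2⟩ := ap_reach h hv
  unfold Mh at huv
  set a := ap B B1 D1 (RR κ K2 R0 m) u with hadef
  set b := ap B B1 D1 (RR κ K2 R0 m) v with hbdef
  obtain ⟨d, hd, hd'⟩ := h.Dadd a ha b hb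
  have hdB1 : d ∈ B1 (LB κ k1 K2 R0 m ku + LB κ k1 K2 R0 m kv + κ) := by
    have h3 := h.add' (h.add' ha2 hb2) hd'
    rwa [← add_assoc, h.two, zero_add] at h3
  have hφd : φ d ∈ B (s + κ) := by
    have h3 := h.add huv (hφ _ _ hd')
    have h4 : φ a + φ b + φ (a + b + d) = φ d := by
      rw [← map_add, ← map_add, ← add_assoc, h.two, zero_add]
    rwa [h4] at h3
  have hds := hDs d hd
  obtain ⟨y, hy, hy1⟩ := hDsD _ hds
  have hyB : y ∈ B (s + κ + κ6) := by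
    have h3 := h.add hφd hy1
    rwa [← add_assoc, h.two, zero_add] at h3
  obtain ⟨e, he, hey⟩ := amb.reach _ y hy hyB
  have h5 := hs.compare hgs he (Λ (s + κ + κ6)) hds (r := κ6)
    (P := LB κ k1 K2 R0 m ku + LB κ k1 K2 R0 m kv + κ) (by rw [hey, add_comm]; exact hy1) (by omega)
    (hφs _ _ hdB1) (by unfold LB at c2 ⊢; omega)
  have h6 := hiso _ d hd h5
  have h7 := h.add' h6 hd'
  have h8 := h.le _ h7
  have h9 := h.add (h.add h8 ha1) hb1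
  have h10 : d + (a + b + d) + (u + a) + (v + b) = u + v + ((a + a) + (b + b) + (d + d)) := by abel
  rw [h10] at h9
  simp only [h.two, add_zero] at h9
  refine h.mono ?_ h9
  unfold LB
  omega

end phi

end Pool.Agent.helper42.MF
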