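import Pool.Agent.helper20.MF.Glue3
import Pool.Agent.MF.EndAlg
import Pool.Agent.MF.LemT

/-!
# MP_141f81, Section 9: operators of letters and their relations (row facts)

`RowF`: for an `EndAlg` and rows `EMOut`: the operator `A w x` of the letter `(w, x)` (multiplication by `w`), the sections
`φ`, `g`, `s`, `Θ`, `Z` of the squaring and of the labels, and all relations between them, with one constant.
-/

set_option autoImplicit false

namespace Pool.Agent.helper42.MF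

open Finset Helper34MF Pool.Agent.helper20.MF
open Pool.Agent.MF (Mat LinPart EndAlg EMOut StmtSub sub Exact)
open Pool.Agent.MF.LemT (nr kr)

section

variable {N : Type} [AddCommGroup N] [Fintype N] [DecidableEq N]

open Classical in
/-- a level as a finite set -/
noncomputable def Lv (D : ℕ → AddSubgroup N) (t : ℕ) : Finset N := Finset.univ.filter fun v => v ∈ D t

omit [DecidableEq N] in
theorem mem_Lv {D : ℕ → AddSubgroup N} {t : ℕ} {v : N} : v ∈ Lv D t ↔ v ∈ D t := by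
  classical
  unfold Lv
  rw [mem_filter]
  exact ⟨fun h => h.2, fun h => ⟨mem_univ _, h⟩⟩

variable {M : Mat N} {Lin : Finset N} {J : ℕ} {D : ℕ → AddSubgroup N} {mul : N → N → N} {sq th ze g s : N → N}

section alg

variable (hE : EndAlg M Lin J D mul sq th ze g s)
include hE

theorem lev_le {t t' : ℕ} (h : t ≤ t') (h' : t' ≤ J) : D t ≤ D t' := by
  induction t' with
  | zero =>
    obtain rfl : t = 0 := by omega
    exact le_refl _
  | succ k ih =>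
    rcases Nat.lt_or_ge k t with h1 | h1
    · obtain rfl : t = k + 1 := by omega
      exact le_refl _
    · exact (ih h1 (by omega)).trans (hE.mono k (by omega))

theorem Lv_mono {t t' : ℕ} (h : t ≤ t') (h' : t' ≤ J) : Lv D t ⊆ Lv D t' := fun _ hv =>
  mem_Lv.2 (lev_le hE h h' (mem_Lv.1 hv))

theorem lin_Lv {t : ℕ} (h : t ≤ J) : Lin ⊆ Lv D t := fun v hv =>
  mem_Lv.2 (lev_le hE (Nat.zero_le t) h ((hE.lin v).2 hv))

omit hE in
/-- closure of one more role -/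
theorem cl_ins {τ : Finset N} {u v : N} (h : M.InCl {u} v) : M.InCl (insert u τ) v :=
  h.mono (by
    intro w hw
    rw [mem_singleton] at hw
    subst hw
    exact mem_insert_self _ _)

omit hE in
theorem cl_ins2 {u v w : N} (h : M.InCl {u, v} w) : M.InCl (insert v {u}) w := by
  rwa [Finset.pair_comm] at h

/-- the role map `mul w` on the letters of the type `{w}` -/
theorem role_mul {ℓ : ℕ} (hℓ : ℓ < J) {w : N} (hw : w ∈ D ℓ) (hw0 : w ≠ 0) : RoleOK M Lin {w} (Lv D ℓ) (mul w) where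
  rk := (Mat.rk_singleton_le w).trans (by omega)
  lin := lin_Lv hE hℓ.le
  add_mem u hu v hv := mem_Lv.2 ((D ℓ).add_mem (mem_Lv.1 hu) (mem_Lv.1 hv))
  add u hu v hv := hE.mul_add ℓ hℓ w hw u (mem_Lv.1 hu) v (mem_Lv.1 hv)
  cl v hv := cl_ins2 (hE.mul_cl ℓ hℓ w hw v (mem_Lv.1 hv))
  cl' v hv := cl_ins2 (hE.mul_cl' ℓ hℓ w hw v (mem_Lv.1 hv) hw0)

omit hE in
/-- a label -/
theorem role_lab {ℓ : ℕ} (hl : Lin ⊆ Lv D ℓ) {f : N → N} (hadd : ∀ u ∈ D ℓ, ∀ v ∈ D ℓ, f (u + v) = f u + f v)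
    (hcl : ∀ v ∈ D ℓ, M.InCl {v} (f v)) (hcl' : ∀ v ∈ D ℓ, M.InCl {f v} v) : RoleOK M Lin ∅ (Lv D ℓ) f where
  rk := by rw [M.rk_empty]; omega
  lin := hl
  add_mem u hu v hv := mem_Lv.2 ((D ℓ).add_mem (mem_Lv.1 hu) (mem_Lv.1 hv))
  add u hu v hv := hadd u (mem_Lv.1 hu) v (mem_Lv.1 hv)
  cl v hv := by
    have h1 := hcl v (mem_Lv.1 hv)
    rwa [← insert_empty_eq] at h1
  cl' v hv := by
    have h1 := hcl' v (mem_Lv.1 hv)
    rwa [← insert_empty_eq] at h1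

end alg

omit [Fintype N] [DecidableEq N] in
theorem comp_add' {D : ℕ → AddSubgroup N} {t t' : ℕ} {f f' : N → N}
    (h : ∀ u ∈ D t, ∀ v ∈ D t, f (u + v) = f u + f v) (hm : ∀ v ∈ D t, f v ∈ D t')
    (h' : ∀ u ∈ D t', ∀ v ∈ D t', f' (u + v) = f' u + f' v) :
    ∀ u ∈ D t, ∀ v ∈ D t, f' (f (u + v)) = f' (f u) + f' (f v) := fun u hu v hv => by
  rw [h u hu v hv, h' _ (hm u hu) _ (hm v hv)]

/-- closure along a composition -/
theorem cl_comp {u v w : N} (h : M.InCl {v} u) (h' : M.InCl {w} v) : M.InCl {w} u := by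
  refine h.trans fun x hx => ?_
  rw [mem_singleton] at hx
  rw [hx]
  exact h'

end

/-- the relations of the row side -/
structure RowF {N : Type} [AddCommGroup N] [Fintype N] [DecidableEq N] (M : Mat N) (D : ℕ → AddSubgroup N)
    (mul : N → N → N) (sq th ze g s : N → N) (ℓ K : ℕ) {n : ℕ} (S : Finset (N → Fin n)) {U : Type} [AddCommGroup U]
    (π : N → Fin n → U) (A : N → Fin n → AddMonoid.End U) (φ γ σ Θ Z : AddMonoid.End U) : Prop where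
  /-- the operators are sections -/
  oA : ∀ w ∈ D ℓ, w ≠ 0 → ∀ η ∈ S, Op (Hc M π {w} (Lv D ℓ) (sub S {w} η) (mul w)) (A w (η w)) K
  oφ : ∀ η ∈ S, Op (Hc M π ∅ (Lv D ℓ) (sub S ∅ η) sq) φ K
  oγ : ∀ η ∈ S, Op (Hc M π ∅ (Lv D ℓ) (sub S ∅ η) g) γ K
  oσ : ∀ η ∈ S, Op (Hc M π ∅ (Lv D ℓ) (sub S ∅ η) s) σ K
  oΘ : ∀ η ∈ S, Op (Hc M π ∅ (Lv D ℓ) (sub S ∅ η) th) Θ K
  oZ : ∀ η ∈ S, Op (Hc M π ∅ (Lv D ℓ) (sub S ∅ η) ze) Z K
  kφ1 : Nat.card (kr (φ + 1)) ≤ K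
  /-- lines -/
  line : ∀ η ∈ S, ∀ u ∈ D ℓ, ∀ v ∈ D ℓ, M.Ind ∅ u v →
    nr (A u (η u) + A v (η v) + A (u + v) (η (u + v))) ≤ K
  /-- products -/
  prod : ∀ t, t < ℓ → ∀ η ∈ S, ∀ u ∈ D t, ∀ v ∈ D t, M.Ind ∅ u v →
    nr (A u (η u) * A v (η v) + A (mul u v) (η (mul u v))) ≤ K
  comm : ∀ t, t < ℓ → ∀ η ∈ S, ∀ u ∈ D t, ∀ v ∈ D t, M.Ind ∅ u v →
    nr (A u (η u) * A v (η v) + A v (η v) * A u (η u)) ≤ K
  sqr : ∀ t, t < ℓ → ∀ η ∈ S, ∀ u ∈ D t, u ≠ 0 → nr (A u (η u) * A u (η u) + A (sq u) (η (sq u))) ≤ K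
  /-- labels -/
  rφ : ∀ t, t < ℓ → ∀ η ∈ S, ∀ u ∈ D t, u ≠ 0 → nr (φ * A u (η u) + A (sq u) (η (sq u)) * φ) ≤ K
  rγ : ∀ t, t < ℓ → ∀ η ∈ S, ∀ u ∈ D t, u ≠ 0 → nr (γ * A u (η u) + A (g u) (η (g u)) * γ) ≤ K
  rσ : ∀ t, t < ℓ → ∀ η ∈ S, ∀ u ∈ D t, u ≠ 0 → nr (σ * A u (η u) + A (s u) (η (s u)) * σ) ≤ K
  rΘ : ∀ t, t < ℓ → ∀ η ∈ S, ∀ u ∈ D t, u ≠ 0 → nr (Θ * A u (η u) + A (th u) (η (th u))) ≤ K
  rΘ' : ∀ t, t < ℓ → ∀ η ∈ S, ∀ u ∈ D t, u ≠ 0 → nr (A u (η u) * Θ + A (th u) (η (th u))) ≤ K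
  rZ : ∀ t, t < ℓ → ∀ η ∈ S, ∀ u ∈ D t, u ≠ 0 → nr (Z * A u (η u) + A (ze u) (η (ze u))) ≤ K
  rZ' : ∀ t, t < ℓ → ∀ η ∈ S, ∀ u ∈ D t, u ≠ 0 → nr (A u (η u) * Z + A (ze u) (η (ze u))) ≤ K
  /-- relations of the labels -/
  gT : nr (γ * Θ + Z * Θ * γ) ≤ K
  sT : nr (σ * (Θ * Θ * Θ) + Θ * σ) ≤ K
  zT : nr (Z * Θ + Θ * Z) ≤ K
  zz : nr (Z * Z + Z + 1) ≤ K

/-! ### the proof -/

section

variable {N : Type} [AddCommGroup N] [Fintype N] [DecidableEq N] {M : Mat N} {Lin : Finset N} {J : ℕ}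
  {D : ℕ → AddSubgroup N} {mul : N → N → N} {sq th ze g s : N → N}

/-- composition of role maps of type `∅` -/
theorem role_comp {L L' : Finset N} {f f' : N → N} (h : RoleOK M Lin ∅ L f) (h' : RoleOK M Lin ∅ L' f')
    (hm : ∀ v ∈ L, f v ∈ L') : RoleOK M Lin ∅ L (fun v => f' (f v)) where
  rk := h.rk
  lin := h.lin
  add_mem := h.add_mem
  add u hu v hv := by rw [h.add u hu v hv, h'.add _ (hm u hu) _ (hm v hv)]
  cl v hv := by
    have h1 := h.cl v hv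
    have h2 := h'.cl _ (hm v hv)
    rw [insert_empty_eq] at h1 h2 ⊢
    exact cl_comp h2 h1
  cl' v hv := by
    have h1 := h.cl' v hv
    have h2 := h'.cl' _ (hm v hv)
    rw [insert_empty_eq] at h1 h2 ⊢
    exact cl_comp h1 h2

theorem RoleOK.mono {τ L L' : Finset N} {f : N → N} (h : RoleOK M Lin τ L' f) (hl : Lin ⊆ L) (hL : L ⊆ L')
    (hadd : ∀ u ∈ L, ∀ v ∈ L, u + v ∈ L) : RoleOK M Lin τ L f where
  rk := h.rk
  lin := hl
  add_mem := hadd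
  add u hu v hv := h.add u (hL hu) v (hL hv)
  cl v hv := h.cl v (hL hv)
  cl' v hv := h.cl' v (hL hv)

section row

variable {n T K : ℕ} {R S : Finset (N → Fin n)} {U : Type} [AddCommGroup U] [Fintype U] [DecidableEq U]
  {π : N → Fin n → U} (h : EMOut M n T R S U π) {η : N → Fin n} (hη : η ∈ S) (hLin : LinPart M Lin)
include h hη hLin

/-- composition of two global maps -/
theorem comp0 {L L' : Finset N} {f f' : N → N} {F F' F'' : AddMonoid.End U} (hl : Lin ⊆ L)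
    (hf : RoleOK M Lin ∅ L' f) (hL : L ⊆ L') (hm : ∀ v ∈ L, f v ∈ L')
    (s1 : Sec (Hc M π ∅ L' (sub S ∅ η) f) F K) (s2 : Sec (Hc M π ∅ L' (sub S ∅ η) f') F' K)
    (s3 : Sec (Hc M π ∅ L (sub S ∅ η) (fun v => f' (f v))) F'' K) :
    nr (F' * F + F'') ≤ T ^ 3 * (K * K * K) := by
  obtain ⟨v0, hv0, hv0'⟩ := exists_out hLin (τ := ∅) (by rw [M.rk_empty]; omega)
  exact rel_comp h hη (L := L) (τ := ∅) ⟨v0, hl hv0, hv0'⟩ (Into.id (by simp) hL)
    ⟨by simp, hm, fun v hv => hf.cl' v (hL hv)⟩ (Into.id (by simp) (Subset.refl _)) s1 s2 s3 (fun v _ => rfl)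

/-- composition of a global map after a map of a smaller level -/
theorem comp1 {L L' : Finset N} {f f' : N → N} {F F' F'' : AddMonoid.End U} (hl : Lin ⊆ L)
    (hf : RoleOK M Lin ∅ L f) (hm : ∀ v ∈ L, f v ∈ L')
    (s1 : Sec (Hc M π ∅ L (sub S ∅ η) f) F K) (s2 : Sec (Hc M π ∅ L' (sub S ∅ η) f') F' K)
    (s3 : Sec (Hc M π ∅ L (sub S ∅ η) (fun v => f' (f v))) F'' K) :
    nr (F' * F + F'') ≤ T ^ 3 * (K * K * K) := by
  obtain ⟨v0, hv0, hv0'⟩ := exists_out hLin (τ := ∅) (by rw [M.rk_empty]; omega)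
  exact rel_comp h hη (L := L) (τ := ∅) ⟨v0, hl hv0, hv0'⟩ (Into.id (by simp) (Subset.refl _))
    ⟨by simp, hm, fun v hv => hf.cl' v hv⟩ (Into.id (by simp) (Subset.refl _)) s1 s2 s3 (fun v _ => rfl)

/-- the same map -/
theorem same0 {L L' : Finset N} {f f' : N → N} {F F' : AddMonoid.End U} (hl : Lin ⊆ L) (hL : L ⊆ L')
    (s1 : Sec (Hc M π ∅ L (sub S ∅ η) f) F K) (s2 : Sec (Hc M π ∅ L' (sub S ∅ η) f') F' K)
    (hff : ∀ v ∈ L, f v = f' v) : nr (F + F') ≤ T ^ 3 * (K * K) := by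
  obtain ⟨v0, hv0, hv0'⟩ := exists_out hLin (τ := ∅) (by rw [M.rk_empty]; omega)
  exact rel_same h hη (L := L) (τ := ∅) ⟨v0, hl hv0, hv0'⟩ (Into.id (by simp) (Subset.refl _))
    (Into.id (by simp) hL) s1 s2 hff

end row

end

theorem Op.mono' {U : Type} [AddCommGroup U] [Finite U] {H : AddSubgroup (U × U)} {A : U →+ U} {K K' : ℕ}
    (h : Op H A K) (hK : K ≤ K') : Op H A K' :=
  ⟨⟨h.sec.mem, h.sec.le.trans hK⟩, h.dom.trans hK, h.rng.trans hK, h.ker.trans hK,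
    h.card.trans (Nat.mul_le_mul_right _ hK)⟩

section

variable {U : Type} [AddCommGroup U] [Finite U]

theorem nr_trans (two : ∀ u : U, u + u = 0) {a b c : AddMonoid.End U} {k k' : ℕ} (h1 : nr (a + b) ≤ k)
    (h2 : nr (b + c) ≤ k') : nr (a + c) ≤ k * k' :=
  Sim.trans (f := a) (g := b) (h := c) two h1 h2

theorem nr_left (a : AddMonoid.End U) {b c : AddMonoid.End U} {k : ℕ} (h : nr (b + c) ≤ k) :
    nr (a * b + a * c) ≤ k := by
  rw [← mul_add]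
  exact (Pool.Agent.MF.LemT.nr_mul_left a (b + c)).trans h

theorem nr_comm {b c : AddMonoid.End U} {k : ℕ} (h : nr (b + c) ≤ k) : nr (c + b) ≤ k := by
  rwa [add_comm]

/-- the section of the diagonal -/
theorem sec_id {N : Type} [AddCommGroup N] [Fintype N] [DecidableEq N] {M : Mat N} {n : ℕ}
    {π : N → Fin n → U} {τ L : Finset N} {P : Finset (N → Fin n)} {K : ℕ} (hK : 1 ≤ K) :
    Sec (Hc M π τ L P (fun v => v)) (1 : AddMonoid.End U) K := by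
  have h1 : ∀ w ∈ Hc M π τ L P (fun v => v), w.1 = w.2 := by
    intro w hw
    have h2 : Hc M π τ L P (fun v => v) ≤ ((AddMonoidHom.fst U U) - (AddMonoidHom.snd U U)).ker := by
      unfold Hc
      rw [AddSubgroup.closure_le]
      rintro w ⟨ρ, _, v, _, _, rfl⟩
      show π v (ρ v) - π v (ρ v) = 0
      exact sub_self _
    have h3 : w.1 - w.2 = 0 := h2 hw
    exact sub_eq_zero.1 h3
  refine ⟨fun x hx => ?_, ?_⟩
  · obtain ⟨y, hy⟩ := mem_pr1.1 hx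
    have h2 : x = y := h1 _ hy
    rw [← h2] at hy
    exact hy
  · refine le_trans ?_ hK
    have h2 : {y : U | ((0 : U), y) ∈ Hc M π τ L P (fun v => v)} ⊆ {0} := by
      intro y hy
      have h3 : (0 : U) = y := h1 _ hy
      rw [Set.mem_singleton_iff, ← h3]
    exact (Set.ncard_le_ncard h2 (Set.finite_singleton _)).trans (by rw [Set.ncard_singleton])

end

theorem ne_of_cl {N : Type} [AddCommGroup N] [Fintype N] [DecidableEq N] {M : Mat N} {u v : N}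
    (h : M.InCl {v} u) (hu : u ≠ 0) : v ≠ 0 := by
  rintro rfl
  apply hu
  rw [← Mat.inCl_empty_iff (M := M)]
  refine h.trans fun x hx => ?_
  rw [mem_singleton] at hx
  rw [hx]
  exact Mat.inCl_zero _

theorem EMOut.S_nonempty {N : Type} [AddCommGroup N] [Fintype N] [DecidableEq N] {M : Mat N} {n T : ℕ}
    {R S : Finset (N → Fin n)} {U : Type} [AddCommGroup U] [Fintype U] [DecidableEq U] {π : N → Fin n → U}
    (h : EMOut M n T R S U π) : S.Nonempty := by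
  obtain ⟨κ, hκ, hJ⟩ := h.jc
  have h1 := h.cardU
  have h2 : 0 < Fintype.card U := Fintype.card_pos_iff.2 ⟨0⟩
  have hn : 0 < n := by
    rcases Nat.eq_zero_or_pos n with h3 | h3
    · rw [h3, Nat.mul_zero] at h1
      omega
    · exact h3
  have h3 := hJ.2.1
  by_contra hS
  rw [Finset.not_nonempty_iff_eq_empty] at hS
  rw [hS, Finset.card_empty, Nat.cast_zero] at h3
  have hκ0 : 0 < κ := by
    by_contra hcon
    push Not at hcon
    have h4 : (0 : ℝ) ≤ T := Nat.cast_nonneg _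
    nlinarith
  have h4 : (0 : ℝ) < n := by exact_mod_cast hn
  have h5 : 0 < κ * (n : ℝ) ^ M.r := by positivity
  linarith

section main

variable {N : Type} [AddCommGroup N] [Fintype N] [DecidableEq N] {M : Mat N} {Lin : Finset N} {J : ℕ}
  {D : ℕ → AddSubgroup N} {mul : N → N → N} {sq th ze g s : N → N}

/-- **The row facts.** -/
theorem row_facts (hSub : StmtSub) (hLin : LinPart M Lin) (hE : EndAlg M Lin J D mul sq th ze g s) {ℓ : ℕ}
    (h3 : 3 ≤ ℓ) (hJ : ℓ + 4 ≤ J) (T : ℕ) : ∃ K : ℕ, 1 ≤ K ∧ ∀ (n : ℕ) (R S : Finset (N → Fin n)) (U : Type)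
      (_ : AddCommGroup U) (_ : Fintype U) (_ : DecidableEq U) (π : N → Fin n → U), EMOut M n T R S U π →
      ∃ (A : N → Fin n → AddMonoid.End U) (φ γ σ Θ Z : AddMonoid.End U),
        RowF M D mul sq th ze g s ℓ K S π A φ γ σ Θ Z := by
  classical
  obtain ⟨K0, hK1, hop⟩ := exists_op hSub M Lin hLin T
  obtain ⟨p, rfl⟩ : ∃ p, ℓ = p + 1 := ⟨ℓ - 1, by omega⟩
  obtain ⟨q, rfl⟩ : ∃ q, p = q + 2 := ⟨p - 2, by omega⟩
  -- constants
  set B : ℕ := (T ^ 3 + 1) * K0 with hB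
  have hT : T ^ 3 ≤ B := by
    have := Nat.mul_le_mul_left (T ^ 3 + 1) hK1
    omega
  have hKB : K0 ≤ B := by
    have := Nat.mul_le_mul_right K0 (show 1 ≤ T ^ 3 + 1 by omega)
    omega
  have hB1 : 1 ≤ B := hK1.trans hKB
  have hpow : ∀ m, m ≤ 30 → B ^ m ≤ B ^ 30 := fun m hm => Nat.pow_le_pow_right hB1 hm
  have c4 : T ^ 3 * (K0 * K0 * K0) ≤ B ^ 4 := by
    calc T ^ 3 * (K0 * K0 * K0) ≤ B * (B * B * B) := by gcongr
      _ = B ^ 4 := by ring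
  have c3 : T ^ 3 * (K0 * K0) ≤ B ^ 4 := by
    calc T ^ 3 * (K0 * K0) ≤ B * (B * B) := by gcongr
      _ = B ^ 3 := by ring
      _ ≤ B ^ 4 := Nat.pow_le_pow_right hB1 (by omega)
  have c5 : T ^ 3 * (K0 * K0 * (K0 * K0)) ≤ B ^ 5 := by
    calc T ^ 3 * (K0 * K0 * (K0 * K0)) ≤ B * (B * B * (B * B)) := by gcongr
      _ = B ^ 5 := by ring
  have k4 : T ^ 3 * (K0 * K0 * K0) ≤ B ^ 30 := c4.trans (hpow 4 (by omega))
  have k5 : T ^ 3 * (K0 * K0 * (K0 * K0)) ≤ B ^ 30 := c5.trans (hpow 5 (by omega))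
  have k1 : K0 ≤ B ^ 30 := hKB.trans ((pow_one B).symm.le.trans (hpow 1 (by omega)))
  refine ⟨B ^ 30, Nat.one_le_pow _ _ hB1, ?_⟩
  intro n R S U i1 i2 i3 π h
  obtain ⟨η0, hη0⟩ := EMOut.S_nonempty h
  have two := h.two
  have hES := Exact.mono h.exact (S_sub h)
  -- global sections
  have glob : ∀ (L : Finset N) (f : N → N), RoleOK M Lin ∅ L f → ∃ F : AddMonoid.End U,
      ∀ η ∈ S, Op (Hc M π ∅ L (sub S ∅ η) f) F K0 := by
    intro L f hf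
    obtain ⟨F, hF⟩ := hop n R S U i1 i2 i3 π h ∅ L f hf η0 hη0
    refine ⟨F, fun η _ => ?_⟩
    rw [Pool.Agent.MF.sub_empty] at hF ⊢
    exact hF
  have hℓ : q + 2 + 1 < J := by omega
  have hlin : ∀ t, t ≤ q + 2 + 1 → Lin ⊆ Lv D t := fun t ht => lin_Lv hE (by omega)
  have hLL : ∀ t t', t ≤ t' → t' ≤ q + 2 + 1 → Lv D t ⊆ Lv D t' := fun t t' ht ht' => Lv_mono hE ht (by omega)
  have hDD : ∀ t t', t ≤ t' → t' ≤ q + 2 + 1 → ∀ v ∈ D t, v ∈ D t' := fun t t' ht ht' v hv =>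
    lev_le hE ht (by omega) hv
  have rsq : RoleOK M Lin ∅ (Lv D (q + 2 + 1)) sq :=
    role_lab (hlin _ le_rfl) (hE.sq_add _ hℓ) (hE.sq_cl _ hℓ) (hE.sq_cl' _ hℓ)
  have rg : ∀ t, t ≤ q + 2 + 1 → RoleOK M Lin ∅ (Lv D t) g := fun t ht =>
    role_lab (hlin _ ht) (hE.g_add _ (by omega)) (hE.g_cl _ (by omega)) (hE.g_cl' _ (by omega))
  have rs : ∀ t, t ≤ q + 2 + 1 → RoleOK M Lin ∅ (Lv D t) s := fun t ht =>
    role_lab (hlin _ ht) (hE.s_add _ (by omega)) (hE.s_cl _ (by omega)) (hE.s_cl' _ (by omega))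
  have rth : ∀ t, t ≤ q + 2 + 1 → RoleOK M Lin ∅ (Lv D t) th := fun t ht =>
    role_lab (hlin _ ht) (hE.th_add _ (by omega)) (hE.th_cl _ (by omega)) (hE.th_cl' _ (by omega))
  have rze : ∀ t, t ≤ q + 2 + 1 → RoleOK M Lin ∅ (Lv D t) ze := fun t ht =>
    role_lab (hlin _ ht) (hE.ze_add _ (by omega)) (hE.ze_cl _ (by omega)) (hE.ze_cl' _ (by omega))
  have ras : RoleOK M Lin ∅ (Lv D (q + 2 + 1)) (fun v => v + sq v) := by
    refine role_lab (hlin _ le_rfl) (fun u hu v hv => ?_) (fun v hv => ?_) (hE.as_cl _ hℓ)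
    · rw [hE.sq_add _ hℓ u hu v hv]
      abel
    · exact (Mat.inCl_mem (mem_singleton_self v)).add (hE.sq_cl _ hℓ v hv)
  obtain ⟨φ, oφ⟩ := glob _ _ rsq
  obtain ⟨γ, oγ⟩ := glob _ _ (rg _ le_rfl)
  obtain ⟨σ, oσ⟩ := glob _ _ (rs _ le_rfl)
  obtain ⟨Θ, oΘ⟩ := glob _ _ (rth _ le_rfl)
  obtain ⟨Z, oZ⟩ := glob _ _ (rze _ le_rfl)
  -- operators of letters
  have hA : ∀ (w : N) (x : Fin n), ∃ F : AddMonoid.End U, w ∈ D (q + 2 + 1) → w ≠ 0 → ∀ η ∈ S, η w = x →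
      Op (Hc M π {w} (Lv D (q + 2 + 1)) (sub S {w} η) (mul w)) F K0 := by
    intro w x
    by_cases hw : w ∈ D (q + 2 + 1) ∧ w ≠ 0 ∧ ∃ η ∈ S, η w = x
    · obtain ⟨hw1, hw2, η1, hη1, hx⟩ := hw
      obtain ⟨F, hF⟩ := hop n R S U i1 i2 i3 π h {w} _ _ (role_mul hE hℓ hw1 hw2) η1 hη1
      refine ⟨F, fun _ _ η hη hηx => ?_⟩
      rw [sub_congr' (η := η) (η' := η1) (fun v hv => by
        rw [mem_singleton] at hv
        rw [hv, hηx, hx])]
      exact hF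
    · exact ⟨0, fun h1 h2 η hη hx => absurd ⟨h1, h2, η, hη, hx⟩ hw⟩
  choose A hA using hA
  have sA : ∀ w ∈ D (q + 2 + 1), w ≠ 0 → ∀ η ∈ S,
      Sec (Hc M π {w} (Lv D (q + 2 + 1)) (sub S {w} η) (mul w)) (A w (η w)) K0 :=
    fun w hw hw0 η hη => (hA w (η w) hw hw0 η hη rfl).sec
  have out2 : ∀ u v : N, ∃ x ∈ Lin, ¬ M.InCl {u, v} x := fun u v => exists_out hLin (Mat.rk_pair_le u v)
  have out1 : ∀ u : N, ∃ x ∈ Lin, ¬ M.InCl {u} x := fun u =>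
    exists_out hLin ((Mat.rk_singleton_le u).trans (by omega))
  have clm : ∀ {τ : Finset N} {w : N}, M.InCl τ w → ∀ x ∈ ({w} : Finset N), M.InCl τ x := by
    intro τ w hw x hx
    rw [mem_singleton] at hx
    rw [hx]
    exact hw
  have cle : ∀ {τ : Finset N}, ∀ x ∈ (∅ : Finset N), M.InCl τ x := fun x hx => absurd hx (by simp)
  have i2 : ∀ u v : N, M.InCl {u, v} u := fun u v => Mat.inCl_mem (by simp)
  have i2' : ∀ u v : N, M.InCl {u, v} v := fun u v => Mat.inCl_mem (by simp)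
  have hmulout : ∀ {τ : Finset N} {w x : N}, w ∈ τ → w ∈ D (q + 2 + 1) → w ≠ 0 → x ∈ D (q + 2 + 1) →
      M.InCl (insert (mul w x) τ) x := by
    intro τ w x hw hwD hw0 hx
    refine (hE.mul_cl' _ hℓ w hwD x hx hw0).mono ?_
    intro y hy
    rw [mem_insert, mem_singleton] at hy
    rcases hy with rfl | rfl
    · exact mem_insert_of_mem hw
    · exact mem_insert_self _ _
  have hprod : ∀ η ∈ S, ∀ u ∈ D (q + 2), ∀ v ∈ D (q + 2), M.Ind ∅ u v →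
      nr (A u (η u) * A v (η v) + A (mul u v) (η (mul u v))) ≤ T ^ 3 * (K0 * K0 * K0) := by
    intro η hη u hu v hv huv
    have hu0 := huv.left_ne_zero
    have hv0 := huv.right_ne_zero
    have hu' := hDD _ _ (Nat.le_succ _) le_rfl u hu
    have hv' := hDD _ _ (Nat.le_succ _) le_rfl v hv
    have huv' : mul u v ∈ D (q + 2 + 1) := hE.mul_mem _ (by omega) u hu v hv
    have huv0 : mul u v ≠ 0 := by
      intro h0
      have h1 := hE.mul_cl' _ hℓ u hu' v hv' hu0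
      rw [h0] at h1
      refine (Pool.Agent.MF.ind_iff'.1 huv).2 ?_
      refine h1.trans fun x hx => ?_
      rw [mem_insert, mem_singleton] at hx
      rcases hx with rfl | rfl
      · exact Mat.inCl_mem (mem_insert_self _ _)
      · exact Mat.inCl_zero _
    obtain ⟨x, hx, hx'⟩ := out2 u v
    exact rel_comp h hη (τ := {u, v}) (L := Lv D (q + 2)) (τ₁ := {v}) (τ₂ := {u}) (τ₃ := {mul u v})
      ⟨x, hlin _ (by omega) hx, hx'⟩
      (Into.id (clm (i2' u v)) (hLL _ _ (Nat.le_succ _) le_rfl))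
      ⟨clm (i2 u v), fun y hy => mem_Lv.2 (hE.mul_mem _ (by omega) v hv y (mem_Lv.1 hy)),
        fun y hy => hmulout (by simp) hv' hv0 (hDD _ _ (Nat.le_succ _) le_rfl y (mem_Lv.1 hy))⟩
      (Into.id (clm (hE.mul_cl _ hℓ u hu' v hv')) (hLL _ _ (Nat.le_succ _) le_rfl))
      (sA v hv' hv0 η hη) (sA u hu' hu0 η hη) (sA _ huv' huv0 η hη)
      (fun y hy => hE.mul_assoc _ (by omega) u hu v hv y (mem_Lv.1 hy))
  have hcomp0 : ∀ (f f' : N → N) (F F' F'' : AddMonoid.End U), RoleOK M Lin ∅ (Lv D (q + 2 + 1)) f →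
      (∀ v ∈ D q, f v ∈ D (q + 2 + 1)) → (∀ η ∈ S, Op (Hc M π ∅ (Lv D (q + 2 + 1)) (sub S ∅ η) f) F K0) →
      (∀ η ∈ S, Op (Hc M π ∅ (Lv D (q + 2 + 1)) (sub S ∅ η) f') F' K0) →
      (∀ η ∈ S, Op (Hc M π ∅ (Lv D q) (sub S ∅ η) (fun v => f' (f v))) F'' K0) →
      nr (F' * F + F'') ≤ B ^ 4 := by
    intro f f' F F' F'' hf hm o1 o2 o3
    exact (comp0 h hη0 hLin (hlin q (by omega)) hf (hLL q _ (by omega) le_rfl)
      (fun v hv => mem_Lv.2 (hm v (mem_Lv.1 hv))) (o1 η0 hη0).sec (o2 η0 hη0).sec (o3 η0 hη0).sec).trans c4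
  have hcomp1 : ∀ (f f' : N → N) (F F' F'' : AddMonoid.End U), RoleOK M Lin ∅ (Lv D q) f →
      (∀ v ∈ D q, f v ∈ D (q + 2 + 1)) → (∀ η ∈ S, Op (Hc M π ∅ (Lv D q) (sub S ∅ η) f) F K0) →
      (∀ η ∈ S, Op (Hc M π ∅ (Lv D (q + 2 + 1)) (sub S ∅ η) f') F' K0) →
      (∀ η ∈ S, Op (Hc M π ∅ (Lv D q) (sub S ∅ η) (fun v => f' (f v))) F'' K0) →
      nr (F' * F + F'') ≤ B ^ 4 := by
    intro f f' F F' F'' hf hm o1 o2 o3
    exact (comp1 h hη0 hLin (hlin q (by omega)) hf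
      (fun v hv => mem_Lv.2 (hm v (mem_Lv.1 hv))) (o1 η0 hη0).sec (o2 η0 hη0).sec (o3 η0 hη0).sec).trans c4
  have hsame : ∀ (f f' : N → N) (F F' : AddMonoid.End U),
      (∀ η ∈ S, Op (Hc M π ∅ (Lv D q) (sub S ∅ η) f) F K0) →
      (∀ η ∈ S, Op (Hc M π ∅ (Lv D q) (sub S ∅ η) f') F' K0) → (∀ v ∈ D q, f v = f' v) →
      nr (F + F') ≤ B ^ 4 := by
    intro f f' F F' o1 o2 hff
    exact (same0 h hη0 hLin (hlin q (by omega)) (Subset.refl _) (o1 η0 hη0).sec (o2 η0 hη0).sec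
      (fun v hv => hff v (mem_Lv.1 hv))).trans c3
  have hup : ∀ t, t < q + 2 + 1 → ∀ v ∈ D t, v ∈ D (q + 2) := fun t ht v hv => hDD t _ (by omega) (by omega) v hv
  have hup' : ∀ v ∈ D (q + 2), v ∈ D (q + 2 + 1) := fun v hv => hDD _ _ (Nat.le_succ _) le_rfl v hv
  have hLs : Lv D (q + 2) ⊆ Lv D (q + 2 + 1) := hLL _ _ (Nat.le_succ _) le_rfl
  have up2 : ∀ v ∈ D q, v ∈ D (q + 2) := hDD _ _ (by omega) (by omega)
  -- maps of one letter: `f (u x) = (f u) (f x)`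
  have hlab : ∀ (f : N → N) (F : AddMonoid.End U), (∀ η ∈ S, Op (Hc M π ∅ (Lv D (q + 2 + 1)) (sub S ∅ η) f) F K0) →
      (∀ v ∈ D (q + 2), f v ∈ D (q + 2 + 1)) → (∀ v ∈ D (q + 2 + 1), M.InCl {v} (f v)) →
      (∀ v ∈ D (q + 2 + 1), M.InCl {f v} v) →
      (∀ u ∈ D (q + 2), ∀ v ∈ D (q + 2), f (mul u v) = mul (f u) (f v)) →
      ∀ η ∈ S, ∀ u ∈ D (q + 2), u ≠ 0 → nr (F * A u (η u) + A (f u) (η (f u)) * F) ≤ B ^ 30 := by
    intro f F oF hm hcl hcl' hid η hη u hu hu0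
    have hfu0 : f u ≠ 0 := ne_of_cl (hcl' u (hup' u hu)) hu0
    obtain ⟨x, hx, hx'⟩ := out1 u
    refine le_trans ?_ k5
    exact rel_square h hη (τ := {u}) (L := Lv D (q + 2)) (τ₁ := {u}) (τ₂ := ∅) (τ₃ := ∅) (τ₄ := {f u})
      ⟨x, hlin _ (by omega) hx, hx'⟩
      (Into.id (clm (Mat.inCl_mem (mem_singleton_self u))) hLs)
      ⟨cle, fun y hy => mem_Lv.2 (hE.mul_mem _ (by omega) u hu y (mem_Lv.1 hy)),
        fun y hy => hmulout (mem_singleton_self u) (hup' u hu) hu0 (hup' y (mem_Lv.1 hy))⟩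
      (Into.id cle hLs)
      ⟨clm (hcl u (hup' u hu)), fun y hy => mem_Lv.2 (hm y (mem_Lv.1 hy)),
        fun y hy => cl_ins (hcl' y (hup' y (mem_Lv.1 hy)))⟩
      (sA u (hup' u hu) hu0 η hη) (oF η hη).sec (oF η hη).sec (sA (f u) (hm u hu) hfu0 η hη)
      (fun y hy => hid u hu y (mem_Lv.1 hy))
  -- linear labels: `f (u x) = (f u) x = u (f x)`
  have hlin1 : ∀ (f : N → N) (F : AddMonoid.End U), (∀ η ∈ S, Op (Hc M π ∅ (Lv D (q + 2 + 1)) (sub S ∅ η) f) F K0) →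
      (∀ v ∈ D (q + 2), f v ∈ D (q + 2 + 1)) → (∀ v ∈ D (q + 2 + 1), M.InCl {v} (f v)) →
      (∀ v ∈ D (q + 2 + 1), M.InCl {f v} v) →
      (∀ u ∈ D (q + 2 + 1), ∀ v ∈ D (q + 2 + 1), f (mul u v) = mul (f u) v) →
      ∀ η ∈ S, ∀ u ∈ D (q + 2), u ≠ 0 → nr (F * A u (η u) + A (f u) (η (f u))) ≤ B ^ 30 ∧
        nr (A u (η u) * F + A (f u) (η (f u))) ≤ B ^ 30 := by
    intro f F oF hm hcl hcl' hid η hη u hu hu0
    have hfu0 : f u ≠ 0 := ne_of_cl (hcl' u (hup' u hu)) hu0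
    obtain ⟨x, hx, hx'⟩ := out1 u
    refine ⟨le_trans ?_ k4, le_trans ?_ k4⟩
    · exact rel_comp h hη (τ := {u}) (L := Lv D (q + 2)) (τ₁ := {u}) (τ₂ := ∅) (τ₃ := {f u})
        ⟨x, hlin _ (by omega) hx, hx'⟩
        (Into.id (clm (Mat.inCl_mem (mem_singleton_self u))) hLs)
        ⟨cle, fun y hy => mem_Lv.2 (hE.mul_mem _ (by omega) u hu y (mem_Lv.1 hy)),
          fun y hy => hmulout (mem_singleton_self u) (hup' u hu) hu0 (hup' y (mem_Lv.1 hy))⟩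
        (Into.id (clm (hcl u (hup' u hu))) hLs)
        (sA u (hup' u hu) hu0 η hη) (oF η hη).sec (sA (f u) (hm u hu) hfu0 η hη)
        (fun y hy => (hid u (hup' u hu) y (hup' y (mem_Lv.1 hy))).symm)
    · exact rel_comp h hη (τ := {u}) (L := Lv D (q + 2)) (τ₁ := ∅) (τ₂ := {u}) (τ₃ := {f u})
        ⟨x, hlin _ (by omega) hx, hx'⟩
        (Into.id cle hLs)
        ⟨clm (Mat.inCl_mem (mem_singleton_self u)), fun y hy => mem_Lv.2 (hm y (mem_Lv.1 hy)),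
          fun y hy => cl_ins (hcl' y (hup' y (mem_Lv.1 hy)))⟩
        (Into.id (clm (hcl u (hup' u hu))) hLs)
        (oF η hη).sec (sA u (hup' u hu) hu0 η hη) (sA (f u) (hm u hu) hfu0 η hη)
        (fun y hy => by
          have hy' := mem_Lv.1 hy
          rw [← hid u (hup' u hu) y (hup' y hy'), hE.mul_comm _ (by omega) u (hup' u hu) (f y) (hm y hy'),
            ← hid y (hup' y hy') u (hup' u hu), hE.mul_comm _ (by omega) y (hup' y hy') u (hup' u hu)])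
  have sqm : ∀ v ∈ D (q + 2), sq v ∈ D (q + 2 + 1) := hE.sq_mem _ (by omega)
  have gm : ∀ v ∈ D (q + 2), g v ∈ D (q + 2 + 1) := hE.g_mem _ (by omega)
  have sm : ∀ v ∈ D (q + 2), s v ∈ D (q + 2 + 1) := hE.s_mem _ (by omega)
  have thm : ∀ v ∈ D (q + 2), th v ∈ D (q + 2 + 1) := hE.th_mem _ (by omega)
  have zem : ∀ v ∈ D (q + 2), ze v ∈ D (q + 2 + 1) := hE.ze_mem _ (by omega)
  have gm' : ∀ v ∈ D q, g v ∈ D (q + 1) := hE.g_mem _ (by omega)
  have sm' : ∀ v ∈ D q, s v ∈ D (q + 1) := hE.s_mem _ (by omega)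
  have thm' : ∀ v ∈ D q, th v ∈ D (q + 1) := hE.th_mem _ (by omega)
  have zem' : ∀ v ∈ D q, ze v ∈ D (q + 1) := hE.ze_mem _ (by omega)
  have thm1 : ∀ v ∈ D (q + 1), th v ∈ D (q + 2) := hE.th_mem _ (by omega)
  have u13 : ∀ v ∈ D (q + 1), v ∈ D (q + 2 + 1) := hDD _ _ (by omega) le_rfl
  have u03 : ∀ v ∈ D q, v ∈ D (q + 2 + 1) := hDD _ _ (by omega) le_rfl
  refine ⟨A, φ, γ, σ, Θ, Z, ?_⟩
  refine
    { oA := fun w hw hw0 η hη => Op.mono' (hA w (η w) hw hw0 η hη rfl) k1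
      oφ := fun η hη => Op.mono' (oφ η hη) k1
      oγ := fun η hη => Op.mono' (oγ η hη) k1
      oσ := fun η hη => Op.mono' (oσ η hη) k1
      oΘ := fun η hη => Op.mono' (oΘ η hη) k1
      oZ := fun η hη => Op.mono' (oZ η hη) k1
      kφ1 := ?_
      line := ?_
      prod := fun t ht η hη u hu v hv huv => (hprod η hη u (hup t ht u hu) v (hup t ht v hv) huv).trans k4
      comm := ?_
      sqr := ?_
      rφ := fun t ht η hη u hu hu0 => hlab sq φ oφ sqm (hE.sq_cl _ hℓ) (hE.sq_cl' _ hℓ)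
        (hE.sq_mul _ (by omega)) η hη u (hup t ht u hu) hu0
      rγ := fun t ht η hη u hu hu0 => hlab g γ oγ gm (hE.g_cl _ hℓ) (hE.g_cl' _ hℓ)
        (hE.g_mul _ (by omega)) η hη u (hup t ht u hu) hu0
      rσ := fun t ht η hη u hu hu0 => hlab s σ oσ sm (hE.s_cl _ hℓ) (hE.s_cl' _ hℓ)
        (hE.s_mul _ (by omega)) η hη u (hup t ht u hu) hu0
      rΘ := fun t ht η hη u hu hu0 => (hlin1 th Θ oΘ thm (hE.th_cl _ hℓ) (hE.th_cl' _ hℓ)
        (hE.th_mul _ (by omega)) η hη u (hup t ht u hu) hu0).1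
      rΘ' := fun t ht η hη u hu hu0 => (hlin1 th Θ oΘ thm (hE.th_cl _ hℓ) (hE.th_cl' _ hℓ)
        (hE.th_mul _ (by omega)) η hη u (hup t ht u hu) hu0).2
      rZ := fun t ht η hη u hu hu0 => (hlin1 ze Z oZ zem (hE.ze_cl _ hℓ) (hE.ze_cl' _ hℓ)
        (hE.ze_mul _ (by omega)) η hη u (hup t ht u hu) hu0).1
      rZ' := fun t ht η hη u hu hu0 => (hlin1 ze Z oZ zem (hE.ze_cl _ hℓ) (hE.ze_cl' _ hℓ)
        (hE.ze_mul _ (by omega)) η hη u (hup t ht u hu) hu0).2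
      gT := ?_
      sT := ?_
      zT := ?_
      zz := ?_ }
  · -- the kernel of `φ + 1`
    obtain ⟨F, oF⟩ := glob _ _ ras
    obtain ⟨x, hx, hx'⟩ := exists_out hLin (τ := ∅) (by rw [M.rk_empty]; omega)
    have h1 : nr (φ + 1 + F) ≤ T ^ 3 * (K0 * K0 * K0) :=
      rel_three h hη0 (τ := ∅) (L := Lv D (q + 2 + 1)) (τ₁ := ∅) (τ₂ := ∅) (τ₃ := ∅)
        ⟨x, hlin _ le_rfl hx, hx'⟩ (Into.id cle (Subset.refl _)) (Into.id cle (Subset.refl _))
        (Into.id cle (Subset.refl _)) (oφ η0 hη0).sec (sec_id hK1) (oF η0 hη0).sec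
        (fun v _ => by
          have e : sq v + v + (v + sq v) = (sq v + sq v) + (v + v) := by abel
          rw [e, M.two, M.two, add_zero])
    have h2 := Pool.Agent.MF.LemT.card_le_ker (kr (φ + 1)) (φ + 1 + F) h1
    have h3 : (kr (φ + 1) ⊓ kr (φ + 1 + F) : AddSubgroup U) ≤ AddMonoidHom.ker (F : U →+ U) := by
      rintro y ⟨hy1, hy2⟩
      have e1 : (φ + 1 : AddMonoid.End U) y = 0 := hy1
      have e2 : (φ + 1 : AddMonoid.End U) y + F y = 0 := hy2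
      rw [e1, zero_add] at e2
      exact e2
    have h4 := (Pool.Agent.MF.LemT.card_mono h3).trans (oF η0 hη0).ker
    calc Nat.card (kr (φ + 1)) ≤ _ := h2
      _ ≤ B ^ 4 * B := Nat.mul_le_mul c4 (h4.trans hKB)
      _ = B ^ 5 := by ring
      _ ≤ B ^ 30 := hpow 5 (by omega)
  · intro η hη u hu v hv huv
    obtain ⟨x, hx, hx'⟩ := out2 u v
    have hs0 : u + v ≠ 0 := fun h0 => huv.ne (M.add_eq_zero.1 h0)
    refine le_trans ?_ k4
    exact rel_three h hη (τ := {u, v}) (L := Lv D (q + 2 + 1)) (τ₁ := {u}) (τ₂ := {v}) (τ₃ := {u + v})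
      ⟨x, hlin _ le_rfl hx, hx'⟩ (Into.id (clm (i2 u v)) (Subset.refl _)) (Into.id (clm (i2' u v)) (Subset.refl _))
      (Into.id (clm ((i2 u v).add (i2' u v))) (Subset.refl _))
      (sA u hu huv.left_ne_zero η hη) (sA v hv huv.right_ne_zero η hη)
      (sA _ ((D (q + 2 + 1)).add_mem hu hv) hs0 η hη)
      (fun y hy => by rw [hE.add_mul _ hℓ u hu v hv y (mem_Lv.1 hy), M.two])
  · intro t ht η hη u hu v hv huv
    have hu' := hup t ht u hu
    have hv' := hup t ht v hv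
    have h1 := hprod η hη u hu' v hv' huv
    have h2 := hprod η hη v hv' u hu' huv.symm
    rw [hE.mul_comm _ (by omega) v hv' u hu'] at h2
    refine (nr_trans two h1 (nr_comm h2)).trans ?_
    calc _ ≤ B ^ 4 * B ^ 4 := Nat.mul_le_mul c4 c4
      _ = B ^ 8 := by ring
      _ ≤ B ^ 30 := hpow 8 (by omega)
  · intro t ht η hη u hu hu0
    have hu' := hup t ht u hu
    have hsq0 : sq u ≠ 0 := ne_of_cl (hE.sq_cl' _ hℓ u (hup' u hu')) hu0
    obtain ⟨x, hx, hx'⟩ := out1 u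
    refine le_trans ?_ k4
    exact rel_comp h hη (τ := {u}) (L := Lv D (q + 2)) (τ₁ := {u}) (τ₂ := {u}) (τ₃ := {sq u})
      ⟨x, hlin _ (by omega) hx, hx'⟩
      (Into.id (clm (Mat.inCl_mem (mem_singleton_self u))) hLs)
      ⟨clm (Mat.inCl_mem (mem_singleton_self u)),
        fun y hy => mem_Lv.2 (hE.mul_mem _ (by omega) u hu' y (mem_Lv.1 hy)),
        fun y hy => hmulout (mem_singleton_self u) (hup' u hu') hu0 (hup' y (mem_Lv.1 hy))⟩
      (Into.id (clm (hE.sq_cl _ hℓ u (hup' u hu'))) hLs)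
      (sA u (hup' u hu') hu0 η hη) (sA u (hup' u hu') hu0 η hη) (sA _ (sqm u hu') hsq0 η hη)
      (fun y hy => by
        rw [hE.sq_eq _ (by omega) u hu', hE.mul_assoc _ (by omega) u hu' u hu' y (mem_Lv.1 hy)])
  · -- `g Θ = Z Θ g`
    have r1 := role_comp (rth q (by omega)) (rg (q + 1) (by omega)) (fun v hv => mem_Lv.2 (thm' v (mem_Lv.1 hv)))
    have r2 := role_comp (rg q (by omega)) (rth (q + 1) (by omega)) (fun v hv => mem_Lv.2 (gm' v (mem_Lv.1 hv)))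
    have r3 := role_comp r2 (rze (q + 2) (by omega)) (fun v hv => mem_Lv.2 (thm1 _ (gm' v (mem_Lv.1 hv))))
    obtain ⟨F1, o1⟩ := glob _ _ r1
    obtain ⟨F2, o2⟩ := glob _ _ r2
    obtain ⟨F3, o3⟩ := glob _ _ r3
    have a := hcomp0 th g Θ γ F1 (rth _ le_rfl) (fun v hv => u13 _ (thm' v hv)) oΘ oγ o1
    have b := hcomp0 g th γ Θ F2 (rg _ le_rfl) (fun v hv => u13 _ (gm' v hv)) oγ oΘ o2
    have c := hcomp1 (fun v => th (g v)) ze F2 Z F3 r2 (fun v hv => hup' _ (thm1 _ (gm' v hv))) o2 oZ o3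
    have d := hsame _ _ F1 F3 o1 o3 (fun v hv => hE.g_th _ (by omega) v hv)
    have e := nr_left Z b
    rw [← mul_assoc] at e
    have f := nr_trans two (nr_trans two (nr_trans two a d) (nr_comm c)) (nr_comm e)
    refine f.trans ?_
    calc _ = B ^ 16 := by ring
      _ ≤ B ^ 30 := hpow 16 (by omega)
  · have r1 := role_comp (rth q (by omega)) (rth (q + 1) (by omega)) (fun v hv => mem_Lv.2 (thm' v (mem_Lv.1 hv)))
    have r2 := role_comp r1 (rth (q + 2) (by omega)) (fun v hv => mem_Lv.2 (thm1 _ (thm' v (mem_Lv.1 hv))))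
    have r3 := role_comp r2 (rs (q + 2 + 1) le_rfl)
      (fun v hv => mem_Lv.2 (thm _ (thm1 _ (thm' v (mem_Lv.1 hv)))))
    have r4 := role_comp (rs q (by omega)) (rth (q + 1) (by omega)) (fun v hv => mem_Lv.2 (sm' v (mem_Lv.1 hv)))
    obtain ⟨F1, o1⟩ := glob _ _ r1
    obtain ⟨F2, o2⟩ := glob _ _ r2
    obtain ⟨F3, o3⟩ := glob _ _ r3
    obtain ⟨F4, o4⟩ := glob _ _ r4
    have a := hcomp0 th th Θ Θ F1 (rth _ le_rfl) (fun v hv => u13 _ (thm' v hv)) oΘ oΘ o1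
    have b := hcomp1 (fun v => th (th v)) th F1 Θ F2 r1 (fun v hv => hup' _ (thm1 _ (thm' v hv))) o1 oΘ o2
    have c := hcomp1 (fun v => th (th (th v))) s F2 σ F3 r2 (fun v hv => thm _ (thm1 _ (thm' v hv))) o2 oσ o3
    have d := hcomp0 s th σ Θ F4 (rs _ le_rfl) (fun v hv => u13 _ (sm' v hv)) oσ oΘ o4
    have e := hsame _ _ F3 F4 o3 o4 (fun v hv => hE.s_th _ (by omega) v hv)
    have f1 := nr_left σ (nr_left Θ a)
    have f2 := nr_left σ b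
    have f := nr_trans two (nr_trans two (nr_trans two (nr_trans two f1 f2) c) e) (nr_comm d)
    rw [← mul_assoc Θ Θ Θ] at f
    refine f.trans ?_
    calc _ = B ^ 20 := by ring
      _ ≤ B ^ 30 := hpow 20 (by omega)
  · have r1 := role_comp (rth q (by omega)) (rze (q + 1) (by omega)) (fun v hv => mem_Lv.2 (thm' v (mem_Lv.1 hv)))
    have r2 := role_comp (rze q (by omega)) (rth (q + 1) (by omega)) (fun v hv => mem_Lv.2 (zem' v (mem_Lv.1 hv)))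
    obtain ⟨F1, o1⟩ := glob _ _ r1
    obtain ⟨F2, o2⟩ := glob _ _ r2
    have a := hcomp0 th ze Θ Z F1 (rth _ le_rfl) (fun v hv => u13 _ (thm' v hv)) oΘ oZ o1
    have b := hcomp0 ze th Z Θ F2 (rze _ le_rfl) (fun v hv => u13 _ (zem' v hv)) oZ oΘ o2
    have d := hsame _ _ F1 F2 o1 o2 (fun v hv => (hE.th_ze _ (by omega) v hv).symm)
    have f := nr_trans two (nr_trans two a d) (nr_comm b)
    refine f.trans ?_
    calc _ = B ^ 12 := by ring
      _ ≤ B ^ 30 := hpow 12 (by omega)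
  · have r1 := role_comp (rze q (by omega)) (rze (q + 1) (by omega)) (fun v hv => mem_Lv.2 (zem' v (mem_Lv.1 hv)))
    obtain ⟨F1, o1⟩ := glob _ _ r1
    have a := hcomp0 ze ze Z Z F1 (rze _ le_rfl) (fun v hv => u13 _ (zem' v hv)) oZ oZ o1
    obtain ⟨x, hx, hx'⟩ := exists_out hLin (τ := ∅) (by rw [M.rk_empty]; omega)
    have b : nr (F1 + Z + 1) ≤ T ^ 3 * (K0 * K0 * K0) :=
      rel_three h hη0 (τ := ∅) (L := Lv D q) (τ₁ := ∅) (τ₂ := ∅) (τ₃ := ∅)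
        ⟨x, hlin _ (by omega) hx, hx'⟩ (Into.id cle (Subset.refl _)) (Into.id cle (hLL _ _ (by omega) le_rfl))
        (Into.id cle (Subset.refl _)) (o1 η0 hη0).sec (oZ η0 hη0).sec (sec_id hK1)
        (fun v hv => hE.ze_ze _ (by omega) v (mem_Lv.1 hv))
    have c : nr (Z * Z + F1 + (F1 + Z + 1)) ≤ B ^ 4 * B ^ 4 :=
      (Pool.Agent.MF.LemT.nr_add _ _).trans (Nat.mul_le_mul a (b.trans c4))
    have e : Z * Z + F1 + (F1 + Z + 1) = Z * Z + Z + 1 := by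
      have e1 : F1 + F1 = 0 := by
        ext y
        exact two (F1 y)
      calc Z * Z + F1 + (F1 + Z + 1) = Z * Z + (F1 + F1) + Z + 1 := by abel
        _ = Z * Z + Z + 1 := by rw [e1, add_zero]
    rw [e] at c
    refine c.trans ?_
    calc _ = B ^ 8 := by ring
      _ ≤ B ^ 30 := hpow 8 (by omega)

end main

end Pool.Agent.helper42.MF
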