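import Pool.Agent.helper42.MF.RowF
import Pool.Agent.helper63.MF.PreIn

/-!
# MP_141f81, Section 9: the row facts in the shape of `RowsIn`
-/

set_option autoImplicit false

namespace Pool.Agent.helper42.MF

open Finset Helper34MF Pool.Agent.helper20.MF
open Pool.Agent.MF (Mat LinPart EndAlg EMOut StmtSub sub Exact)
open Pool.Agent.MF.LemT (nr kr Lab)
open Pool.Agent.helper63.MF (Dat RowsIn Colr)

/-- the data of the rows: the roles `a`, `b`; `S2 ⊆ S` -/
noncomputable def mkDat {N : Type} [AddCommGroup N] [Fintype N] [DecidableEq N] (M : Mat N) (D : ℕ → AddSubgroup N)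
    (mul : N → N → N) (sq th ze g s : N → N) (ℓ : ℕ) {n : ℕ} (S S2 : Finset (N → Fin n)) {U : Type} [AddCommGroup U]
    (π : N → Fin n → U) (A : N → Fin n → AddMonoid.End U) (φ γ σ Θ Z : AddMonoid.End U) (L : U → AddMonoid.End U)
    (VV : Finset (AddMonoid.End U)) (η0 : N → Fin n) (a b : N) : Dat U (N → Fin n) where
  S := S2
  thr z := sub S2 {a} z
  L := L
  VV := VV
  pa z := π a (z a)
  pb z := π b (z b)
  pm z := π (mul a b) (z (mul a b))
  Aa z := A a (z a)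
  Ab z := A b (z b)
  Am z := A (mul a b) (z (mul a b))
  Θ := Θ
  ζ := Z
  g := γ
  s := σ
  φ := φ
  HΘ := Hc M π ∅ (Lv D ℓ) (sub S ∅ η0) th
  Hζ := Hc M π ∅ (Lv D ℓ) (sub S ∅ η0) ze
  Hg := Hc M π ∅ (Lv D ℓ) (sub S ∅ η0) g
  Hs := Hc M π ∅ (Lv D ℓ) (sub S ∅ η0) s
  Hφ := Hc M π ∅ (Lv D ℓ) (sub S ∅ η0) sq
  pΘ z := π (th a) (z (th a))
  pζ z := π (ze a) (z (ze a))
  pg z := π (g a) (z (g a))
  ps z := π (s a) (z (s a))
  pφ z := π (sq a) (z (sq a))
  AΘ z := A (th a) (z (th a))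
  Aζ z := A (ze a) (z (ze a))
  Ag z := A (g a) (z (g a))
  As z := A (s a) (z (s a))
  Aφ z := A (sq a) (z (sq a))
  Hm z := Hc M π {a} (Lv D ℓ) (sub S {a} z) (mul a)

theorem Op.up {U : Type} [AddCommGroup U] [Finite U] {H : AddSubgroup (U × U)} {A : U →+ U} {K K' : ℕ}
    (h : Op H A K) (hK : K ≤ K') : Op H A K' where
  sec := ⟨h.sec.mem, h.sec.le.trans hK⟩
  dom := h.dom.trans hK
  rng := h.rng.trans hK
  ker := h.ker.trans hK
  card := h.card.trans (Nat.mul_le_mul_right _ hK)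

section

variable {N : Type} [AddCommGroup N] [Fintype N] [DecidableEq N] {M : Mat N} {Lin : Finset N} {J : ℕ}
  {D : ℕ → AddSubgroup N} {mul : N → N → N} {sq th ze g s : N → N}

/-- **The instance of `RowsIn`**; `K1` bounds the inputs. -/
theorem rowsIn_mk (hE : EndAlg M Lin J D mul sq th ze g s) {ℓ t : ℕ} (ht : t < ℓ) (hJ : ℓ + 4 ≤ J) {a b : N}
    (ha : a ∈ D t) (hb : b ∈ D t) (hab : M.Ind ∅ a b)
    {n T K : ℕ} {R S S2 : Finset (N → Fin n)} {U : Type} [AddCommGroup U] [Fintype U] [DecidableEq U]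
    {π : N → Fin n → U} (h : EMOut M n T R S U π) {A : N → Fin n → AddMonoid.End U} {φ γ σ Θ Z : AddMonoid.End U}
    (hR : RowF M D mul sq th ze g s ℓ K S π A φ γ σ Θ Z) (hS2 : S2 ⊆ S) (hne : S2.Nonempty) {η0 : N → Fin n}
    (hη0 : η0 ∈ S) {L : U → AddMonoid.End U} {VV : Finset (AddMonoid.End U)} {C : ℕ} (hKC : K ≤ C)
    (hadd : ∀ u v : U, nr (L (u + v) + (L u + L v)) ≤ C) (hVV : VV.card ≤ C)
    (hcol : ∀ w ∈ D (t + 1), w ≠ 0 → ∀ ρ ∈ S2, ∃ ν ∈ VV, nr (A w (ρ w) + (L (π w (ρ w)) + ν)) ≤ C)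
    (hda : ∀ m : ℕ, ∀ P ⊆ S2, S2.card ≤ m * P.card → Fintype.card U ≤ m * C * (P.image fun z => π a (z a)).card)
    (hdb : ∀ z ∈ S2, ∀ m : ℕ, ∀ Q ⊆ sub S2 {a} z, (sub S2 {a} z).card ≤ m * Q.card →
      Fintype.card U ≤ m * C * (Q.image fun z => π b (z b)).card) :
    RowsIn C (mkDat M D mul sq th ze g s ℓ S S2 π A φ γ σ Θ Z L VV η0 a b) := by
  classical
  have ha0 : a ≠ 0 := hab.left_ne_zero
  have hb0 : b ≠ 0 := hab.right_ne_zero
  have hlt : t < J := by omega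
  have haS : a ∈ D (t + 1) := hE.mono t hlt ha
  have hbS : b ∈ D (t + 1) := hE.mono t hlt hb
  have haL : a ∈ Lv D ℓ := mem_Lv.2 (lev_le hE (Nat.le_of_lt ht) (by omega) ha)
  have hbL : b ∈ Lv D ℓ := mem_Lv.2 (lev_le hE (Nat.le_of_lt ht) (by omega) hb)
  have haL' : a ∈ D ℓ := mem_Lv.1 haL
  have hncl : ¬ M.InCl {a} b := by
    have h1 := hab.right'
    rwa [insert_empty_eq] at h1
  have hncl0 : ¬ M.InCl ∅ a := by
    rw [Mat.inCl_empty_iff]
    exact ha0
  have hm0 : mul a b ≠ 0 := by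
    intro h0
    apply hncl
    have h1 := hE.mul_cl' t hlt a ha b hb ha0
    rw [h0] at h1
    refine h1.trans fun x hx => ?_
    rw [mem_insert, mem_singleton] at hx
    rcases hx with rfl | rfl
    · exact Mat.inCl_mem (mem_singleton_self _)
    · exact Mat.inCl_zero _
  have hmem : ∀ ρ ∈ S2, ∀ f : N → N, (π a (ρ a), π (f a) (ρ (f a))) ∈ Hc M π ∅ (Lv D ℓ) (sub S ∅ η0) f := by
    intro ρ hρ f
    refine Hc_mem (L := Lv D ℓ) (τ := ∅) ?_ haL hncl0 f
    rw [Pool.Agent.MF.sub_empty]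
    exact hS2 hρ
  have hsub : ∀ z, ∀ w ∈ sub S2 {a} z, w ∈ S2 ∧ w a = z a := by
    intro z w hw
    have := Pool.Agent.helper20.MF.mem_sub.1 hw
    exact ⟨this.1, (this.2 a (mem_singleton_self _)).symm⟩
  have oΘ := hR.oΘ η0 hη0
  have oZ := hR.oZ η0 hη0
  have oγ := hR.oγ η0 hη0
  have oσ := hR.oσ η0 hη0
  have oφ := hR.oφ η0 hη0
  exact {
    two := h.two
    ne := hne
    add := hadd
    cV := hVV
    densa := hda
    thr_sub := fun z hz w hw => (hsub z w hw).1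
    densb := hdb
    cola := fun z hz => hcol a haS ha0 z hz
    colb := fun z hz => hcol b hbS hb0 z hz
    colm := fun z hz => hcol _ (hE.mul_mem t hlt a ha b hb) hm0 z hz
    colΘ := fun z hz => hcol _ (hE.th_mem t hlt a ha) (ne_of_cl (hE.th_cl' t hlt a ha) ha0) z hz
    colζ := fun z hz => hcol _ (hE.ze_mem t hlt a ha) (ne_of_cl (hE.ze_cl' t hlt a ha) ha0) z hz
    colg := fun z hz => hcol _ (hE.g_mem t hlt a ha) (ne_of_cl (hE.g_cl' t hlt a ha) ha0) z hz
    cols := fun z hz => hcol _ (hE.s_mem t hlt a ha) (ne_of_cl (hE.s_cl' t hlt a ha) ha0) z hz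
    colφ := fun z hz => hcol _ (hE.sq_mem t hlt a ha) (ne_of_cl (hE.sq_cl' t hlt a ha) ha0) z hz
    mab := fun z hz w hw => by
      have h1 := hR.prod t ht w (hS2 (hsub z w hw).1) a ha b hb hab
      rw [(hsub z w hw).2] at h1
      exact h1.trans hKC
    mba := fun z hz w hw => by
      have h1 := hR.prod t ht w (hS2 (hsub z w hw).1) b hb a ha hab.symm
      rw [(hsub z w hw).2, hE.mul_comm t (by omega) b hb a ha] at h1
      exact h1.trans hKC
    Hm_card := fun z hz => ((hR.oA a haL' ha0 z (hS2 hz)).card).trans (Nat.mul_le_mul_right _ hKC)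
    Hm_mem := fun z hz w hw => by
      refine Hc_mem (L := Lv D ℓ) (τ := {a}) ?_ hbL hncl (mul a)
      have h1 := hsub z w hw
      refine Pool.Agent.helper20.MF.mem_sub.2 ⟨hS2 h1.1, fun x hx => ?_⟩
      rw [mem_singleton] at hx
      rw [hx]
      exact h1.2.symm
    opΘ := Op.up oΘ hKC
    opζ := Op.up oZ hKC
    opg := Op.up oγ hKC
    ops := Op.up oσ hKC
    opφ := Op.up oφ hKC
    memΘ := fun z hz => hmem z hz th
    memζ := fun z hz => hmem z hz ze
    memg := fun z hz => hmem z hz g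
    mems := fun z hz => hmem z hz s
    memφ := fun z hz => hmem z hz sq
    kφ1 := hR.kφ1.trans hKC
    lΘ := fun z hz => (hR.rΘ t ht z (hS2 hz) a ha ha0).trans hKC
    rΘ := fun z hz => (hR.rΘ' t ht z (hS2 hz) a ha ha0).trans hKC
    lζ := fun z hz => (hR.rZ t ht z (hS2 hz) a ha ha0).trans hKC
    rg := fun z hz => (hR.rγ t ht z (hS2 hz) a ha ha0).trans hKC
    rs := fun z hz => (hR.rσ t ht z (hS2 hz) a ha ha0).trans hKC
    rφ := fun z hz => (hR.rφ t ht z (hS2 hz) a ha ha0).trans hKC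
    sq := fun z hz => (hR.sqr t ht z (hS2 hz) a ha ha0).trans hKC
    lab := {
      two := h.two
      kg := oγ.ker.trans hKC
      ks := oσ.ker.trans hKC
      gT := hR.gT.trans hKC
      sT := hR.sT.trans hKC
      zT := hR.zT.trans hKC
      zz := hR.zz.trans hKC } }

end

end Pool.Agent.helper42.MF
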