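import Pool.Agent.helper35.MF.Len

set_option autoImplicit false

/-!
# MP_141f81: transport to the letters which occur (E0)

`Y` is the type of all letters, `X = {y // p y}` the letters which occur.  `ext : (X →₀ ZMod 2) → (Y →₀ ZMod 2)` and
`res` in the other direction.  If all elements of `T` are supported on `X`, then `Ball (pre p T) r = pre p (Ball T r)`.
-/

namespace Pool.Agent.helper42.MF

open Pool.Agent.helper35.MF

section

variable {Y : Type} (p : Y → Prop)

/-- extension by zero -/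
noncomputable def ext : ({y // p y} →₀ ZMod 2) →+ (Y →₀ ZMod 2) :=
  Finsupp.mapDomain.addMonoidHom Subtype.val

/-- restriction -/
noncomputable def res : (Y →₀ ZMod 2) →+ ({y // p y} →₀ ZMod 2) :=
  Finsupp.subtypeDomainAddMonoidHom

/-- supported on the letters which occur -/
def Supp (g : Y →₀ ZMod 2) : Prop := ∀ y, ¬ p y → g y = 0

/-- the preimage of a set of words -/
def pre (T : Set (Y →₀ ZMod 2)) : Set ({y // p y} →₀ ZMod 2) := {g | ext p g ∈ T}

variable {p}

theorem ext_apply (g : {y // p y} →₀ ZMod 2) (x : {y // p y}) : ext p g x.1 = g x :=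
  Finsupp.mapDomain_apply Subtype.val_injective _ _

theorem ext_apply_not (g : {y // p y} →₀ ZMod 2) {y : Y} (hy : ¬ p y) : ext p g y = 0 := by
  refine Finsupp.mapDomain_notin_range _ _ ?_
  rintro ⟨x, rfl⟩
  exact hy x.2

theorem res_apply (g : Y →₀ ZMod 2) (x : {y // p y}) : res p g x = g x.1 := rfl

theorem res_ext (g : {y // p y} →₀ ZMod 2) : res p (ext p g) = g := by
  refine Finsupp.ext fun x => ?_
  rw [res_apply, ext_apply]

theorem ext_res {g : Y →₀ ZMod 2} (hg : Supp p g) : ext p (res p g) = g := by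
  refine Finsupp.ext fun y => ?_
  by_cases hy : p y
  · have h1 := ext_apply (res p g) ⟨y, hy⟩
    rw [res_apply] at h1
    exact h1
  · rw [ext_apply_not _ hy, hg y hy]

theorem ext_injective : Function.Injective (ext p) := by
  intro a b hab
  rw [← res_ext a, ← res_ext b, hab]

theorem ext_supp (g : {y // p y} →₀ ZMod 2) : Supp p (ext p g) := fun _ hy => ext_apply_not g hy

theorem ext_sy (x : {y // p y}) : ext p (sy x) = sy x.1 := by
  show Finsupp.mapDomain Subtype.val (Finsupp.single x 1) = Finsupp.single x.1 1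
  rw [Finsupp.mapDomain_single]

theorem res_sy {y : Y} (hy : p y) : res p (sy y) = sy (⟨y, hy⟩ : {y // p y}) := by
  rw [← res_ext (sy (⟨y, hy⟩ : {y // p y})), ext_sy]

theorem supp_sy {y : Y} (hy : p y) : Supp p (sy y : Y →₀ ZMod 2) := by
  intro z hz
  refine Finsupp.single_eq_of_ne ?_
  rintro rfl
  exact hz hy

theorem supp_add {a b : Y →₀ ZMod 2} (ha : Supp p a) (hb : Supp p b) : Supp p (a + b) := by
  intro y hy
  rw [Finsupp.add_apply, ha y hy, hb y hy, add_zero]

theorem supp_zero : Supp p (0 : Y →₀ ZMod 2) := fun _ _ => rfl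

theorem supp_sum (l : List (Y →₀ ZMod 2)) (h : ∀ g ∈ l, Supp p g) : Supp p l.sum := by
  induction l with
  | nil => exact supp_zero
  | cons a l ih =>
    rw [List.sum_cons]
    exact supp_add (h a List.mem_cons_self) (ih fun g hg => h g (List.mem_cons_of_mem _ hg))

theorem supp_wd {l : List Y} (h : ∀ y ∈ l, p y) : Supp p (wd l) := by
  refine supp_sum _ fun g hg => ?_
  obtain ⟨y, hy, rfl⟩ := List.mem_map.mp hg
  exact supp_sy (h y hy)

theorem ext_wd (l : List {y // p y}) : ext p (wd l) = wd (l.map Subtype.val) := by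
  unfold wd
  rw [map_list_sum, List.map_map, List.map_map]
  congr 1
  refine List.map_congr_left fun x _ => ?_
  exact ext_sy x

/-- a list of letters which occur -/
theorem lift_list {l : List Y} (h : ∀ y ∈ l, p y) : ∃ l' : List {y // p y}, l'.map Subtype.val = l := by
  induction l with
  | nil => exact ⟨[], rfl⟩
  | cons a l ih =>
    obtain ⟨l', hl'⟩ := ih fun y hy => h y (List.mem_cons_of_mem _ hy)
    exact ⟨⟨a, h a List.mem_cons_self⟩ :: l', by rw [List.map_cons, hl']⟩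

theorem lift_wd {l : List Y} (h : ∀ y ∈ l, p y) : ∃ l' : List {y // p y}, l'.length = l.length ∧
    l'.map Subtype.val = l ∧ ext p (wd l') = wd l := by
  obtain ⟨l', hl'⟩ := lift_list h
  refine ⟨l', ?_, hl', ?_⟩
  · rw [← hl', List.length_map]
  · rw [ext_wd, hl']

theorem ball_supp {T : Set (Y →₀ ZMod 2)} (hT : ∀ t ∈ T, Supp p t) {r : ℕ} {g : Y →₀ ZMod 2}
    (hg : g ∈ Ball T r) : Supp p g := by
  obtain ⟨l, _, h2, rfl⟩ := hg
  exact supp_sum l fun t ht => hT t (h2 t ht)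

/-- **balls are transported** -/
theorem ball_pre {T : Set (Y →₀ ZMod 2)} (hT : ∀ t ∈ T, Supp p t) (r : ℕ) (g : {y // p y} →₀ ZMod 2) :
    g ∈ Ball (pre p T) r ↔ ext p g ∈ Ball T r := by
  constructor
  · rintro ⟨l, h1, h2, rfl⟩
    refine ⟨l.map (ext p), by rwa [List.length_map], ?_, by rw [map_list_sum]⟩
    intro x hx
    obtain ⟨t, ht, rfl⟩ := List.mem_map.mp hx
    exact h2 t ht
  · rintro ⟨l, h1, h2, h3⟩
    refine ⟨l.map (res p), by rwa [List.length_map], ?_, ?_⟩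
    · intro x hx
      obtain ⟨t, ht, rfl⟩ := List.mem_map.mp hx
      show ext p (res p t) ∈ T
      rw [ext_res (hT t (h2 t ht))]
      exact h2 t ht
    · rw [← map_list_sum, h3, res_ext]

/-- transported maps -/
noncomputable def tr (p : Y → Prop) (M : (Y →₀ ZMod 2) →+ (Y →₀ ZMod 2)) :
    ({y // p y} →₀ ZMod 2) →+ ({y // p y} →₀ ZMod 2) := (res p).comp (M.comp (ext p))

theorem ext_tr {M : (Y →₀ ZMod 2) →+ (Y →₀ ZMod 2)} {g : {y // p y} →₀ ZMod 2} (h : Supp p (M (ext p g))) :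
    ext p (tr p M g) = M (ext p g) := ext_res h

theorem tr_ball {M : (Y →₀ ZMod 2) →+ (Y →₀ ZMod 2)} {T T' : Set (Y →₀ ZMod 2)}
    (hT : ∀ t ∈ T, Supp p t) {r : ℕ} (hM : ∀ t ∈ T', M t ∈ Ball T r) :
    ∀ t ∈ pre p T', tr p M t ∈ Ball (pre p T) r := by
  intro t ht
  rw [ball_pre hT, ext_tr (ball_supp hT (hM _ ht))]
  exact hM _ ht

theorem tr_sy {M : (Y →₀ ZMod 2) →+ (Y →₀ ZMod 2)} {x x' : {y // p y}} (h : M (sy x.1) = sy x'.1) :
    tr p M (sy x) = sy x' := by
  show res p (M (ext p (sy x))) = sy x'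
  rw [ext_sy, h, res_sy x'.2]

/-- **the coarse set is transported** -/
theorem coarse_pre {T D F : Set (Y →₀ ZMod 2)} {κ l1 l0 : ℕ} (h : CoarseF T D F κ l1 l0)
    (hp : ∀ y, sy y ∈ D → p y) : CoarseF (pre p T) (pre p D) (pre p F) κ l1 l0 := by
  have hT : ∀ t ∈ T, Supp p t := by
    intro t ht
    obtain ⟨l, _, h2, rfl⟩ := h.line t ht
    exact supp_wd fun y hy => hp y (h2 y hy)
  have hF : ∀ f ∈ F, Supp p f := by
    intro f hf
    obtain ⟨_, l, _, h2, rfl⟩ := h.short f hf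
    exact supp_wd fun y hy => hp y (h2 y hy)
  have hD : ∀ u ∈ D, Supp p u := by
    intro u hu
    obtain ⟨l, _, h2, _, fs, _, h3, rfl⟩ := h.word u hu
    exact supp_add (supp_wd fun y hy => hp y (h2 y hy)) (supp_sum fs fun f hf => hF f (h3 f hf))
  have hsyD : ∀ x : {y // p y}, sy x.1 ∈ D → sy x ∈ pre p D := by
    intro x hx
    show ext p (sy x) ∈ D
    rwa [ext_sy]
  refine ⟨?_, ?_, ?_, ?_, ?_, ?_⟩
  · intro t ht
    obtain ⟨l, h1, h2, h3⟩ := h.line _ ht
    obtain ⟨l', h4, h5, h6⟩ := lift_wd (p := p) fun y hy => hp y (h2 y hy)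
    refine ⟨l', by rwa [h4], fun x hx => hsyD x (h2 _ (h5 ▸ List.mem_map_of_mem hx)), ?_⟩
    exact ext_injective (by rw [h6, h3])
  · show ext p 0 ∈ D
    rw [map_zero]
    exact h.zero
  · intro u hu v hv
    obtain ⟨w, hw, hw'⟩ := h.add _ hu _ hv
    refine ⟨res p w, ?_, ?_⟩
    · show ext p (res p w) ∈ D
      rwa [ext_res (hD w hw)]
    · rw [ball_pre hT, map_add, map_add, ext_res (hD w hw)]
      exact hw'
  · intro f hf
    obtain ⟨h1, l, h2, h3, h4⟩ := h.short _ hf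
    obtain ⟨l', h5, h6, h7⟩ := lift_wd (p := p) fun y hy => hp y (h3 y hy)
    refine ⟨h1, l', by rwa [h5], fun x hx => hsyD x (h3 _ (h6 ▸ List.mem_map_of_mem hx)), ?_⟩
    exact ext_injective (by rw [h7, h4])
  · intro u hu f hf
    show ext p (u + f) ∈ D
    rw [map_add]
    exact h.addF _ hu _ hf
  · intro u hu
    obtain ⟨l, h1, h2, h3, fs, h4, h5, h6⟩ := h.word _ hu
    obtain ⟨l', h7, h8, h9⟩ := lift_wd (p := p) fun y hy => hp y (h2 y hy)
    refine ⟨l', by rwa [h7], fun x hx => hsyD x (h2 _ (h8 ▸ List.mem_map_of_mem hx)), ?_, fs.map (res p),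
      by rwa [List.length_map], ?_, ?_⟩
    · show ext p (wd l') ∈ D
      rwa [h9]
    · intro f hf
      obtain ⟨g, hg, rfl⟩ := List.mem_map.mp hf
      show ext p (res p g) ∈ F
      rw [ext_res (hF g (h5 g hg))]
      exact h5 g hg
    · refine ext_injective ?_
      rw [h6, map_add, h9, map_list_sum, List.map_map]
      congr 2
      symm
      conv_rhs => rw [← List.map_id fs]
      refine List.map_congr_left fun f hf => ?_
      exact ext_res (hF f (h5 f hf))

/-- a set of words with pairwise distances outside a ball is transported -/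
theorem cov_pre {T : Set (Y →₀ ZMod 2)} (hT : ∀ t ∈ T, Supp p t) {b N : ℕ} {Q : (Y →₀ ZMod 2) → Prop}
    (h : ∀ W : Finset (Y →₀ ZMod 2), (∀ w ∈ W, Q w) → (∀ w ∈ W, ∀ w' ∈ W, w ≠ w' → w + w' ∉ Ball T b) →
      W.card ≤ N) (W : Finset ({y // p y} →₀ ZMod 2)) (hW : ∀ w ∈ W, Q (ext p w))
    (hs : ∀ w ∈ W, ∀ w' ∈ W, w ≠ w' → w + w' ∉ Ball (pre p T) b) : W.card ≤ N := by
  classical
  have h1 := h (W.image (ext p)) (fun w hw => by
    obtain ⟨v, hv, rfl⟩ := Finset.mem_image.mp hw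
    exact hW v hv) (fun w hw w' hw' hne => by
    obtain ⟨v, hv, rfl⟩ := Finset.mem_image.mp hw
    obtain ⟨v', hv', rfl⟩ := Finset.mem_image.mp hw'
    rw [← map_add, ← ball_pre hT]
    exact hs v hv v' hv' fun h0 => hne (by rw [h0]))
  rwa [Finset.card_image_of_injective _ ext_injective] at h1

/-- consistency is transported -/
theorem cons_pre {T : Set (Y →₀ ZMod 2)} (hT : ∀ t ∈ T, Supp p t) {b C : ℕ} {y0 : Y} (hy0 : p y0)
    (h : ∀ Q : Finset Y, (∀ q ∈ Q, p q) → (∀ q ∈ Q, sy y0 + sy q ∈ Ball T b) → Q.card ≤ C)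
    (Q : Finset {y // p y}) (hQ : ∀ q ∈ Q, sy (⟨y0, hy0⟩ : {y // p y}) + sy q ∈ Ball (pre p T) b) :
    Q.card ≤ C := by
  classical
  have h1 := h (Q.image Subtype.val) (fun q hq => by
    obtain ⟨x, _, rfl⟩ := Finset.mem_image.mp hq
    exact x.2) (fun q hq => by
    obtain ⟨x, hx, rfl⟩ := Finset.mem_image.mp hq
    have h2 := hQ x hx
    rwa [ball_pre hT, map_add, ext_sy, ext_sy] at h2)
  rwa [Finset.card_image_of_injective _ Subtype.val_injective] at h1

/-- the balls of `D` are transported -/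
theorem ncard_pre {T D : Set (Y →₀ ZMod 2)} (hT : ∀ t ∈ T, Supp p t) {b M : ℕ}
    (h : ∀ u ∈ D, {v | v ∈ D ∧ u + v ∈ Ball T b}.Finite ∧ {v | v ∈ D ∧ u + v ∈ Ball T b}.ncard ≤ M) :
    ∀ u ∈ pre p D, {v | v ∈ pre p D ∧ u + v ∈ Ball (pre p T) b}.Finite ∧
      {v | v ∈ pre p D ∧ u + v ∈ Ball (pre p T) b}.ncard ≤ M := by
  intro u hu
  obtain ⟨h1, h2⟩ := h _ hu
  have h3 : (ext p) '' {v | v ∈ pre p D ∧ u + v ∈ Ball (pre p T) b} ⊆
      {v | v ∈ D ∧ ext p u + v ∈ Ball T b} := by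
    rintro _ ⟨v, ⟨hv1, hv2⟩, rfl⟩
    refine ⟨hv1, ?_⟩
    rw [← map_add, ← ball_pre hT]
    exact hv2
  have h4 : {v | v ∈ pre p D ∧ u + v ∈ Ball (pre p T) b}.Finite :=
    Set.Finite.of_finite_image (h1.subset h3) ext_injective.injOn
  refine ⟨h4, ?_⟩
  rw [← Set.ncard_image_of_injective _ ext_injective]
  exact (Set.ncard_le_ncard h3 h1).trans h2

end

end Pool.Agent.helper42.MF
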